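import Mathlib.Algebra.BigOperators.Fin
import Mathlib.Algebra.Notation.Lemmas
import Mathlib.Data.Finset.Sym
import Mathlib.Data.Nat.Choose.Cast
import Mathlib.Topology.Sheaves.Presheaf
import Mathlib.Data.Int.Star
import Mathlib.Algebra.Order.Ring.Star
import Mathlib.Analysis.Normed.Field.Basic
import Mathlib.Tactic.Bound
import Mathlib.Algebra.Order.Star.Real
import Mathlib.Combinatorics.SimpleGraph.Basic
import Mathlib.Data.Fin.Tuple.Sort
import Mathlib.RingTheory.PiTensorProduct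
import Mathlib.Tactic.Polynomial.Basic

-- ======== part 0: formerly Pool.Agent.MP_16ca68_co.h95.Lift
section MrgPart0

set_option autoImplicit false

namespace Pool.Agent.NJ

open Finset

/-- A lift of the complete graph on five parts: `σ U W` matches fibre `U` with fibre `W`. -/
def Inv {F : Type} (σ : Fin 5 → Fin 5 → F → F) : Prop := ∀ U W x, σ W U (σ U W x) = x

/-- Neighbour of `u` in part `W`. -/
def nb {F : Type} (σ : Fin 5 → Fin 5 → F → F) (u : Fin 5 × F) (W : Fin 5) : Fin 5 × F :=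
  (W, σ u.1 W u.2)

/-- Every nonempty set of at most `t` vertices has a vertex with at most one neighbour in it. -/
def Sparse {F : Type} (σ : Fin 5 → Fin 5 → F → F) (t : ℕ) : Prop :=
  ∀ S : Finset (Fin 5 × F), S.Nonempty → S.card ≤ t →
    ∃ u ∈ S, ∀ W W', W ≠ u.1 → W' ≠ u.1 → nb σ u W ∈ S → nb σ u W' ∈ S → W = W'

theorem nb_nb {F : Type} {σ : Fin 5 → Fin 5 → F → F} (h : Inv σ) (u : Fin 5 × F) (W : Fin 5) :
    nb σ (nb σ u W) u.1 = u := by
  obtain ⟨U, x⟩ := u
  simp [nb, h U W x]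

open Classical in
/-- The two-fold lift along every edge at once. -/
noncomputable def up {F : Type} (σ : Fin 5 → Fin 5 → F → F) (U W : Fin 5)
    (p : F × (Sym2 (Fin 5 × F) → Bool)) : F × (Sym2 (Fin 5 × F) → Bool) :=
  (σ U W p.1, fun k => if k = s((U, p.1), (W, σ U W p.1)) then !(p.2 k) else p.2 k)

theorem up_inv {F : Type} {σ : Fin 5 → Fin 5 → F → F} (h : Inv σ) : Inv (up σ) := by
  classical
  intro U W p
  obtain ⟨x, g⟩ := p
  simp only [up, h U W x, Prod.mk.injEq, true_and]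
  funext k
  have e : s((W, σ U W x), (U, x)) = s((U, x), (W, σ U W x)) := Sym2.eq_swap
  rw [e]
  split_ifs <;> simp

theorem up_sparse {F : Type} {σ : Fin 5 → Fin 5 → F → F} (t : ℕ)
    (hs : Sparse σ t) : Sparse (up σ) (t + 1) := by
  classical
  intro S hne hcard
  by_contra hbad
  push Not at hbad
  let pr : Fin 5 × (F × (Sym2 (Fin 5 × F) → Bool)) → Fin 5 × F := fun u => (u.1, u.2.1)
  have hpr : ∀ u W, pr (nb (up σ) u W) = nb σ (pr u) W := fun u W => rfl
  have himg : t < (S.image pr).card := by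
    by_contra hle
    push Not at hle
    obtain ⟨v, hv, hv2⟩ := hs (S.image pr) (hne.image _) hle
    obtain ⟨u, hu, rfl⟩ := mem_image.1 hv
    obtain ⟨W, W', h1, h2, h3, h4, h5⟩ := hbad u hu
    exact h5 (hv2 W W' h1 h2 (hpr u W ▸ mem_image_of_mem pr h3) (hpr u W' ▸ mem_image_of_mem pr h4))
  have hinj : Set.InjOn pr S := by
    rw [← card_image_iff]
    have := card_image_le (s := S) (f := pr)
    omega
  have main : ∀ n : ℕ, ∀ A : Finset (Fin 5 × (F × (Sym2 (Fin 5 × F) → Bool))), A.card = n →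
      A ⊆ S → A.Nonempty → ∀ u0 W0, (∀ u ∈ A, ∀ W, W ≠ u.1 → nb (up σ) u W ∈ S →
        nb (up σ) u W ∉ A → u = u0 ∧ W = W0) → False := by
    intro n
    induction n using Nat.strong_induction_on with
    | _ n ih =>
      intro A hA hAS hAne u0 W0 hb
      obtain ⟨u, huA, hu0⟩ : ∃ u ∈ A, (u0 ∈ A → u = u0) := by
        by_cases h0 : u0 ∈ A
        · exact ⟨u0, h0, fun _ => rfl⟩
        · obtain ⟨u, hu⟩ := hAne
          exact ⟨u, hu, fun h' => absurd h' h0⟩
      obtain ⟨W, hW, hWA⟩ : ∃ W, W ≠ u.1 ∧ nb (up σ) u W ∈ A := by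
        obtain ⟨W1, W2, h1, h2, h3, h4, h5⟩ := hbad u (hAS huA)
        by_cases c1 : nb (up σ) u W1 ∈ A
        · exact ⟨W1, h1, c1⟩
        · by_cases c2 : nb (up σ) u W2 ∈ A
          · exact ⟨W2, h2, c2⟩
          · exact absurd ((hb u huA W1 h1 h3 c1).2.trans (hb u huA W2 h2 h4 c2).2.symm) h5
      set u' := nb (up σ) u W with hu'
      set k : Sym2 (Fin 5 × F) := s(pr u, pr u') with hk
      have hflip : u'.2.2 k = !(u.2.2 k) := by
        simp only [hu', nb, up]
        rw [if_pos]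
        rfl
      let A' := A.filter (fun a => a.2.2 k = u'.2.2 k)
      have huA' : u ∉ A' := by
        simp only [A', mem_filter, not_and, hflip]
        intro _
        cases u.2.2 k <;> simp
      have hlt : A'.card < n := by
        rw [← hA]
        exact card_lt_card ⟨filter_subset _ _, fun hsub => huA' (hsub huA)⟩
      refine ih _ hlt A' rfl ((filter_subset _ _).trans hAS) ⟨u', mem_filter.2 ⟨hWA, rfl⟩⟩
        u' u.1 ?_
      intro a ha W'' hW'' hS hnA'
      have haA : a ∈ A := (mem_filter.1 ha).1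
      have hak : a.2.2 k = u'.2.2 k := (mem_filter.1 ha).2
      have hau : a ≠ u := fun e => huA' (e ▸ ha)
      by_cases hn : nb (up σ) a W'' ∈ A
      · have hne2 : (nb (up σ) a W'').2.2 k ≠ u'.2.2 k := fun e => hnA' (mem_filter.2 ⟨hn, e⟩)
        have hkey : k = s(pr a, pr (nb (up σ) a W'')) := by
          by_contra hc
          apply hne2
          rw [← hak]
          simp only [nb, up]
          rw [if_neg]
          exact hc
        rw [hk, Sym2.eq_iff] at hkey
        rcases hkey with ⟨e1, _⟩ | ⟨e1, e2⟩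
        · exact absurd (hinj (hAS huA) (hAS haA) e1).symm hau
        · have f1 := hinj (hAS huA) hS e1
          have f2 := hinj (hAS hWA) (hAS haA) e2
          refine ⟨f2.symm, ?_⟩
          rw [f1]; rfl
      · have := (hb a haA W'' hW'' hS hn).1
        exact absurd ((hu0 (this ▸ haA)).trans this.symm).symm hau
  obtain ⟨u, hu⟩ := hne
  exact main _ S rfl subset_rfl ⟨u, hu⟩ u u.1 (fun a _ W _ h1 h2 => absurd h1 h2)

theorem exists_lift (t : ℕ) : ∃ (F : Type) (_ : Fintype F) (σ : Fin 5 → Fin 5 → F → F),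
    2 ≤ Fintype.card F ∧ Inv σ ∧ Sparse σ t := by
  classical
  induction t with
  | zero =>
    refine ⟨Bool, inferInstance, fun _ _ x => x, by simp, fun _ _ _ => rfl, ?_⟩
    intro S hne hc
    have := hne.card_pos
    omega
  | succ t ih =>
    obtain ⟨F, hF, σ, h2, hi, hs⟩ := ih
    refine ⟨F × (Sym2 (Fin 5 × F) → Bool), inferInstance, up σ, ?_, up_inv hi, up_sparse t hs⟩
    rw [Fintype.card_prod]
    have : 0 < Fintype.card (Sym2 (Fin 5 × F) → Bool) := Fintype.card_pos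
    nlinarith

/-- A parent slot for every vertex of a small set. -/
theorem exists_parent {F : Type} {σ : Fin 5 → Fin 5 → F → F} (h : Inv σ) (t : ℕ)
    (hs : Sparse σ t) (S : Finset (Fin 5 × F)) (hS : S.card ≤ t) :
    ∃ P : Fin 5 × F → Fin 5, (∀ u, P u ≠ u.1) ∧
      ∀ u ∈ S, ∀ W, W ≠ u.1 → nb σ u W ∈ S → P u = W ∨ P (nb σ u W) = u.1 := by
  classical
  have hsucc : ∀ U : Fin 5, U + 1 ≠ U := by decide
  induction hn : S.card generalizing S with
  | zero =>
    refine ⟨fun u => u.1 + 1, fun u => hsucc _, ?_⟩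
    intro u hu
    rw [card_eq_zero.1 hn] at hu
    simp at hu
  | succ n ih =>
    obtain ⟨u0, hu0, hone⟩ := hs S (card_pos.1 (by omega)) hS
    obtain ⟨P, hP1, hP2⟩ := ih (S.erase u0) (by rw [card_erase_of_mem hu0]; omega)
      (by rw [card_erase_of_mem hu0]; omega)
    obtain ⟨W0, hW0, hW0'⟩ : ∃ W0, W0 ≠ u0.1 ∧ ∀ W, W ≠ u0.1 → nb σ u0 W ∈ S → W0 = W := by
      by_cases hex : ∃ W, W ≠ u0.1 ∧ nb σ u0 W ∈ S
      · obtain ⟨W0, h1, h2⟩ := hex
        exact ⟨W0, h1, fun W h3 h4 => hone W0 W h1 h3 h2 h4⟩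
      · exact ⟨u0.1 + 1, hsucc _, fun W h3 h4 => absurd ⟨W, h3, h4⟩ hex⟩
    refine ⟨Function.update P u0 W0, ?_, ?_⟩
    · intro u
      by_cases e : u = u0
      · subst e; simpa using hW0
      · rw [Function.update_of_ne e]; exact hP1 u
    · intro u hu W hW hn2
      by_cases e : u = u0
      · subst e
        left
        simpa using hW0' W hW hn2
      · by_cases e2 : nb σ u W = u0
        · right
          rw [e2, Function.update_self]
          apply hW0'
          · rw [← e2]; exact fun e3 => hW e3.symm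
          · rw [← e2, nb_nb h]; exact hu
        · rw [Function.update_of_ne e, Function.update_of_ne e2]
          exact hP2 u (mem_erase.2 ⟨e, hu⟩) W hW (mem_erase.2 ⟨e2, hn2⟩)

end Pool.Agent.NJ

end MrgPart0

-- ======== part 1: formerly Pool.Agent.MP_16ca68_co.h95.CertN
section MrgPart1

set_option autoImplicit false

namespace Pool.Agent.NJ

/-- block 0 of certificate N -/
noncomputable def qN0 (d1 d2 d3 d4 u1 u2 u3 : ℝ) : ℝ :=
    5887/15000*d1^2 + 14843/15000*d1*d2 + 6067/5000*d1*d3 + 18649/15000*d1*d4 - 8269/30000*d1*u1 -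
      1187/6000*d1*u2 + 2401/15000*d1*u3 + 462871/450000*d2^2 + 203929/75000*d2*d3 +
      347501/112500*d2*d4 - 20251/45000*d2*u1 - 36719/56250*d2*u2 + 25499/56250*d2*u3 +
      111289/50000*d3^2 + 79429/15000*d3*d4 - 90659/150000*d3*u1 - 182399/150000*d3*u2 +
      10901/15000*d3*u3 + 103444/28125*d4^2 - 159517/225000*d4*u1 - 393049/225000*d4*u2 +
      23933/28125*d4*u3 + 201137/1080000*u1^2 - 551/2500*u1*u2 + 1951/2500*u1*u3 +
      2663641/5400000*u2^2 - 329749/225000*u2*u3 + 1071041/675000*u3^2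

theorem qN0_nonneg (d1 d2 d3 d4 u1 u2 u3 : ℝ) : 0 ≤ qN0 d1 d2 d3 d4 u1 u2 u3 := by
  have e : qN0 d1 d2 d3 d4 u1 u2 u3 =
      5887/15000*(d1 + 14843/11774*d2 + 18201/11774*d3 + 18649/11774*d4 - 8269/23548*u1 -
      5935/23548*u2 + 343/1682*u3)^2 + 2145123419/5298300000*(d2 + 3150818493/2145123419*d3 +
      4030846943/2145123419*d4 - 543301235/4290246838*u1 - 2137237973/4290246838*u2 +
      666330259/2145123419*u3)^2 + 22224253156521/53628085475000*(d3 +
      183155713203743/133345518939126*d4 - 8907940789961/266691037878252*u1 -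
      102216590155019/266691037878252*u2 + 1359390532213/10257347610702*u3)^2 +
      9640656489916939759/20001827840868900000*(d4 - 833562868828518481/19281312979833879518*u1 -
      4784719557387187375/19281312979833879518*u2 - 260938765051311919/9640656489916939759*u3)^2 +
      6767061703961062032720067/52059545045551474698600000*(u1 -
      9420314553227991263764896/6767061703961062032720067*u2 +
      22671972214548312610816020/6767061703961062032720067*u3)^2 +
      928211362438357682441150477107/36542133201389734976688361800000*(u2 -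
      945981080288344588043871488208/928211362438357682441150477107*u3)^2 +
      23965306386980640416790032692107623/626542669645891435647776572047225000*(u3)^2 := by
    unfold qN0; ring
  rw [e]; positivity

/-- block 1 of certificate N -/
noncomputable def qN1 (d1 d2 d3 d4 u1 u2 u3 : ℝ) : ℝ :=
    49/1200*d1^2 + 187/2500*d1*d2 + 1/10*d1*d3 + 349/2500*d1*d4 - 41/2500*d1*u1 - 6/125*d1*u2 +
      27/500*d1*u3 + 38503/450000*d2^2 + 16357/75000*d2*d3 + 66751/225000*d2*d4 - 3989/225000*d2*u1 -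
      29/250*d2*u2 + 28853/225000*d2*u3 + 9987/50000*d3^2 + 3893/7500*d3*d4 - 761/37500*d3*u1 -
      261/1250*d3*u2 + 3317/15000*d3*u3 + 173227/450000*d4^2 - 5287/225000*d4*u1 - 194/625*d4*u2 +
      36971/112500*d4*u3 + 103/10800*u1^2 + 1/4500*u1*u2 + 2071/225000*u1*u3 + 19579/270000*u2^2 -
      98/625*u2*u3 + 21661/225000*u3^2

theorem qN1_nonneg (d1 d2 d3 d4 u1 u2 u3 : ℝ) : 0 ≤ qN1 d1 d2 d3 d4 u1 u2 u3 := by
  have e : qN1 d1 d2 d3 d4 u1 u2 u3 =
      49/1200*(d1 + 1122/1225*d2 + 60/49*d3 + 2094/1225*d4 - 246/1225*u1 - 144/245*u2 + 162/245*u3)^2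
      + 5656583/110250000*(d2 + 6973395/5656583*d3 + 9305591/5656583*d4 - 149269/5656583*u1 -
      3970980/5656583*u2 + 4342525/5656583*u3)^2 + 2140325177/35353643750*(d3 +
      59403234203/51367804248*d4 + 1326393707/51367804248*u1 - 1082159580/2140325177*u2 +
      722417695/1510817772*u3)^2 + 353036948411137/7705170637200000*(d4 +
      20708564883329/353036948411137*u1 - 150436488208320/353036948411137*u2 +
      153245987346946/353036948411137*u3)^2 + 1824567013225862491/238299940177517475000*(u1 -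
      887263659817230165/1824567013225862491*u2 + 4360664244704819883/3649134026451724982*u3)^2 +
      3703187564397906156799/492633093570982872570000*(u2 -
      3605663577547847277297/3703187564397906156799*u3)^2 +
      25479447408870417755352641/3332868807958115541119100000*(u3)^2 := by
    unfold qN1; ring
  rw [e]; positivity

/-- block 2 of certificate N -/
noncomputable def qN2 (d1 d2 d3 d4 u1 u2 u3 : ℝ) : ℝ :=
    58951/225000*d1^2 + 2027/2500*d1*d2 + 669/625*d1*d3 + 333/250*d1*d4 + 19/625*d1*u1 -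
      497/1250*d1*u2 - 16/125*d1*u3 + 61199/56250*d2^2 + 50699/18750*d2*d3 + 357967/112500*d2*d4 +
      28223/225000*d2*u1 - 1219/1250*d2*u2 - 741/2500*d2*u3 + 51239/25000*d3^2 + 178361/37500*d3*d4 +
      4073/15000*d3*u1 - 188/125*d3*u2 - 231/500*d3*u3 + 173831/56250*d4^2 + 45701/112500*d4*u1 -
      4953/2500*d4*u2 - 1503/2500*d4*u3 + 1963/45000*u1^2 - 393/2500*u1*u2 - 16409/225000*u1*u3 +
      18719/56250*u2^2 + 49/250*u2*u3 + 7/108*u3^2

theorem qN2_nonneg (d1 d2 d3 d4 u1 u2 u3 : ℝ) : 0 ≤ qN2 d1 d2 d3 d4 u1 u2 u3 := by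
  have e : qN2 d1 d2 d3 d4 u1 u2 u3 =
      58951/225000*(d1 + 91215/58951*d2 + 120420/58951*d3 + 149850/58951*d4 + 3420/58951*u1 -
      44730/58951*u2 - 14400/58951*u3)^2 + 6110792771/13263975000*(d2 + 63747066/56062319*d3 +
      7433944867/6110792771*d4 + 1039863473/12221585542*u1 - 2387467260/6110792771*u2 -
      652225095/6110792771*u3)^2 + 101090082057/280311595000*(d3 + 35544717453/33696694019*d4 +
      168594692443/1010900820570*u1 - 39590982272/101090082057*u2 - 4144249913/33696694019*u3)^2 +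
      144302247885236/459117456008875*(d4 + 61232092522567/360755619713090*u1 -
      2154296760642511/5772089915409440*u2 - 574999927019529/5772089915409440*u3)^2 +
      274888990217075191/13528335739240875000*(u1 - 224185083305196025/549777980434150382*u2 -
      643526689882039825/824666970651225573*u3)^2 +
      18089912352504551500651/1979200729562941375200000*(u2 -
      10479259645115167304539/18089912352504551500651*u3)^2 +
      324294576280106295385456121/16280921117254096350585900000*(u3)^2 := by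
    unfold qN2; ring
  rw [e]; positivity

/-- block 3 of certificate N -/
noncomputable def qN3 (d1 d2 d3 d4 u1 u2 u3 : ℝ) : ℝ :=
    25909/225000*d1^2 + 667/2500*d1*d2 + 177/625*d1*d3 + 169/500*d1*d4 - 3/50*d1*u1 - 64/625*d1*u2 +
      299/2500*d1*u3 + 207/1000*d2^2 + 16121/37500*d2*d3 + 2854/5625*d2*d4 - 2179/28125*d2*u1 -
      4618/28125*d2*u2 + 10663/56250*d2*u3 + 172/625*d3^2 + 23809/37500*d3*d4 - 293/3750*d3*u1 -
      4057/18750*d3*u2 + 1823/7500*d3*u3 + 509/1250*d4^2 - 2504/28125*d4*u1 - 15889/56250*d4*u2 +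
      17717/56250*d4*u3 + 71/5000*u1^2 + 1919/90000*u1*u2 - 499/22500*u1*u3 + 36/625*u2^2 -
      14033/112500*u2*u3 + 3179/37500*u3^2

theorem qN3_nonneg (d1 d2 d3 d4 u1 u2 u3 : ℝ) : 0 ≤ qN3 d1 d2 d3 d4 u1 u2 u3 := by
  have e : qN3 d1 d2 d3 d4 u1 u2 u3 =
      25909/225000*(d1 + 30015/25909*d2 + 31860/25909*d3 + 2925/1993*d4 - 6750/25909*u1 -
      11520/25909*u2 + 1035/1993*u3)^2 + 679581/12954500*(d2 + 98919689/101937150*d3 +
      67513069/61162290*d4 - 11610797/152905725*u1 - 66409124/152905725*u2 + 148683509/305811450*u3)^2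
      + 395083714931/7645286250000*(d3 + 1225782067805/1185251144793*d4 + 38750584574/1185251144793*u1
      - 530215638892/1185251144793*u2 + 533205792461/1185251144793*u3)^2 +
      710778752497961/17778767171895000*(d4 + 192305597475738/3553893762489805*u1 -
      302865740064084/710778752497961*u2 + 6358089264339/14505688826489*u3)^2 +
      4725315124197172751/799626096560206125000*(u1 - 8733049004201674065/18901260496788691004*u2 +
      3773504145112272585/4725315124197172751*u3)^2 +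
      103389835421086065155419/17011134447109821903600000*(u2 -
      79196747832517290874524/103389835421086065155419*u3)^2 +
      36856776750010343648315447/2326271296974436465996927500*(u3)^2 := by
    unfold qN3; ring
  rw [e]; positivity

/-- block 4 of certificate N -/
noncomputable def qN4 (d1 d2 d3 d4 u1 u2 u3 : ℝ) : ℝ :=
    15061/168750*d1^2 - 69/1250*d1*d2 - 351/2500*d1*d3 - 199/2500*d1*d4 - 1357/150000*d1*u1 +
      77/2500*d1*u2 - 4/625*d1*u3 + 94769/450000*d2^2 + 21/50*d2*d3 + 1329/2500*d2*d4 - 199/2500*d2*u1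
      - 87/625*d2*u2 + 79/1250*d2*u3 + 32013/50000*d3^2 + 1783/1250*d3*d4 - 131/1250*d3*u1 -
      56/125*d3*u2 + 161/625*d3*u3 + 259009/225000*d4^2 - 69/500*d4*u1 - 951/1250*d4*u2 +
      593/1250*d4*u3 + 283897/5400000*u1^2 - 153/2500*u1*u2 + 81/500*u1*u3 + 352439/1800000*u2^2 -
      989/2500*u2*u3 + 65653/225000*u3^2

theorem qN4_nonneg (d1 d2 d3 d4 u1 u2 u3 : ℝ) : 0 ≤ qN4 d1 d2 d3 d4 u1 u2 u3 := by
  have e : qN4 d1 d2 d3 d4 u1 u2 u3 =
      15061/168750*(d1 - 9315/30122*d2 - 47385/60244*d3 - 26865/60244*d4 - 12213/240976*u1 +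
      10395/60244*u2 - 540/15061*u3)^2 + 1369469759/6777450000*(d2 + 1276134075/1369469759*d3 +
      1718030385/1369469759*d4 - 159555915/782554148*u1 - 439434045/1369469759*u2 +
      207460620/1369469759*u3)^2 + 56091540130659/136946975900000*(d3 +
      61034495903705/56091540130659*d4 - 9622944223375/224366160522636*u1 -
      20743143224575/56091540130659*u2 + 13387779293720/56091540130659*u3)^2 +
      308911877106138881/934859002177650000*(d4 - 2438087473273195/3706942525273666572*u1 -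
      357235782796130455/926735631318416643*u2 + 255210574054726340/926735631318416643*u3)^2 +
      48031539851736255986011/1112082757582099971600000*(u1 -
      165543014443848547667020/144094619555208767958033*u2 +
      304705196066731094612120/144094619555208767958033*u3)^2 +
      7949859381529881879599619461/778110945598127346973378200000*(u2 -
      8768940731955997205680565560/7949859381529881879599619461*u3)^2 +
      59178752339641205379697853486533/1788718360844223422909914378725000*(u3)^2 := by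
    unfold qN4; ring
  rw [e]; positivity

/-- block 5 of certificate N -/
noncomputable def qN5 (d1 d2 d3 d4 u1 u2 u3 : ℝ) : ℝ :=
    1571/5000*d1^2 - 9/625*d1*d2 + 114/625*d1*d3 + 479/2500*d1*d4 - 63/1250*d1*u1 - 177/2500*d1*u2 +
      197/1250*d1*u3 + 47519/675000*d2^2 + 221/1250*d2*d3 + 183/500*d2*d4 - 32543/450000*d2*u1 -
      31/500*d2*u2 - 59/1250*d2*u3 + 1713/2500*d3^2 + 56537/37500*d3*d4 - 9221/75000*d3*u1 -
      291/625*d3*u2 + 591/2500*d3*u3 + 73153/56250*d4^2 - 43391/225000*d4*u1 - 2047/2500*d4*u2 +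
      1001/2500*d4*u3 + 271141/2700000*u1^2 - 79/500*u1*u2 + 197/500*u1*u3 + 48707/180000*u2^2 -
      1667/2500*u2*u3 + 35099/56250*u3^2

theorem qN5_nonneg (d1 d2 d3 d4 u1 u2 u3 : ℝ) : 0 ≤ qN5 d1 d2 d3 d4 u1 u2 u3 := by
  have e : qN5 d1 d2 d3 d4 u1 u2 u3 =
      1571/5000*(d1 - 36/1571*d2 + 456/1571*d3 + 479/1571*d4 - 126/1571*u1 - 177/1571*u2 +
      394/1571*u3)^2 + 74477389/1060425000*(d2 + 95957730/74477389*d3 + 196385715/74477389*d4 -
      22260657/42558508*u1 - 33733395/74477389*u2 - 23111190/74477389*u3)^2 +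
      4037715291/7447738900*(d3 + 2722584704603/3028286468250*d4 - 19067456471/1514143234125*u1 -
      11267110313/33647627425*u2 + 15318445381/67295254850*u3)^2 +
      78299715403546019/227121485118750000*(d4 + 6479893101773593/156599430807092038*u1 -
      34411738392200160/78299715403546019*u2 + 27866068760500335/78299715403546019*u3)^2 +
      66390858758195268999821/845636926358297005200000*(u1 -
      11415504136581674078220/9484408394027895571403*u2 +
      159315913490797233237420/66390858758195268999821*u3)^2 +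
      18925071078121117165262749/1707193510925021202852540000*(u2 -
      21153947874743794515939612/18925071078121117165262749*u3)^2 +
      1781224244700793058116313365073/29806986948040759535288829675000*(u3)^2 := by
    unfold qN5; ring
  rw [e]; positivity

/-- block 6 of certificate N -/
noncomputable def qN6 (d1 d2 d3 d4 u1 u2 u3 : ℝ) : ℝ :=
    10033/25000*d1^2 + 6/25*d1*d2 - 19/500*d1*d3 + 108/625*d1*d4 - 73/1250*d1*u1 - 197/2500*d1*u2 +
      247/1250*d1*u3 + 61189/150000*d2^2 + 77/500*d2*d3 + 338/625*d2*d4 - 229/2500*d2*u1 -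
      193/1250*d2*u2 + 173/1250*d2*u3 + 18413/50000*d3^2 + 6/5*d3*d4 - 4067/50000*d3*u1 -
      939/2500*d3*u2 + 567/2500*d3*u3 + 97307/75000*d4^2 - 5723/37500*d4*u1 - 519/625*d4*u2 +
      1423/2500*d4*u3 + 229417/1800000*u1^2 - 151/625*u1*u2 + 273/500*u1*u3 + 195703/600000*u2^2 -
      2359/2500*u2*u3 + 71503/75000*u3^2

theorem qN6_nonneg (d1 d2 d3 d4 u1 u2 u3 : ℝ) : 0 ≤ qN6 d1 d2 d3 d4 u1 u2 u3 := by
  have e : qN6 d1 d2 d3 d4 u1 u2 u3 =
      10033/25000*(d1 + 3000/10033*d2 - 475/10033*d3 + 2160/10033*d4 - 730/10033*u1 - 985/10033*u2 +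
      2470/10033*u3)^2 + 559909237/1504950000*(d2 + 124431150/559909237*d3 + 368058480/559909237*d4 -
      55786710/559909237*u1 - 98452140/559909237*u2 + 59682540/559909237*u3)^2 +
      9770019817131/27995461850000*(d3 + 5130071930000/3256673272377*d4 -
      631101114293/6513346544754*u1 - 700394514740/1395717116733*u2 +
      3058904583290/9770019817131*u3)^2 + 20523781640435713/81416831809425000*(d4 +
      619853097120443/20523781640435713*u1 - 7152106989774460/20523781640435713*u2 +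
      5303646118085155/20523781640435713*u3)^2 + 2182019506472215416353/18471403476392141700000*(u1 -
      2669124380974725232740/2182019506472215416353*u2 +
      5407680138372718053690/2182019506472215416353*u3)^2 +
      61068830270219887791186077/3927635111649987749435400000*(u2 -
      76517215005810924187109720/61068830270219887791186077*u3)^2 +
      189047711549102558518120830477/1526720756755497194779651925000*(u3)^2 := by
    unfold qN6; ring
  rw [e]; positivity

/-- block 7 of certificate N -/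
noncomputable def qN7 (d1 d2 d3 d4 u1 u2 u3 : ℝ) : ℝ :=
    8841/25000*d1^2 + 76/125*d1*d2 + 1399/2500*d1*d3 + 231/625*d1*d4 - 299/2500*d1*u1 - 59/500*d1*u2
      + 551/2500*d1*u3 + 35159/56250*d2^2 + 3263/2500*d2*d3 + 2763/2500*d2*d4 - 487/2500*d2*u1 -
      449/1250*d2*u2 + 127/250*d2*u3 + 27401/25000*d3^2 + 5001/2500*d3*d4 - 299/1250*d3*u1 -
      408/625*d3*u2 + 1807/2500*d3*u3 + 238003/168750*d4^2 - 112127/450000*d4*u1 - 2299/2500*d4*u2 +
      1159/1250*d4*u3 + 230209/1350000*u1^2 - 737/2500*u1*u2 + 343/500*u1*u3 + 176881/450000*u2^2 -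
      13/10*u2*u3 + 141341/112500*u3^2

theorem qN7_nonneg (d1 d2 d3 d4 u1 u2 u3 : ℝ) : 0 ≤ qN7 d1 d2 d3 d4 u1 u2 u3 := by
  have e : qN7 d1 d2 d3 d4 u1 u2 u3 =
      8841/25000*(d1 + 7600/8841*d2 + 6995/8841*d3 + 220/421*d4 - 1495/8841*u1 - 1475/8841*u2 +
      2755/8841*u3)^2 + 60293573/165768750*(d2 + 273236745/241174292*d3 + 261079245/241174292*d4 -
      30497505/241174292*u1 - 42729135/120587146*u2 + 52803525/120587146*u3)^2 +
      7376397115351/18088071900000*(d3 + 7378143589455/7376397115351*d4 -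
      364973761115/7376397115351*u1 - 2418438553510/7376397115351*u2 +
      1696072423310/7376397115351*u3)^2 + 1193939592621320531/2489534026430962500*(d4 -
      20231191080929397/415283336563937576*u1 - 387656976954660795/1193939592621320531*u2 +
      49723114293207045/170562798945902933*u3)^2 +
      170948505548770260363511/1121265008722631455200000*(u1 -
      210658564717929155903400/170948505548770260363511*u2 +
      440909877688887914564040/170948505548770260363511*u3)^2 +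
      20602802816636448169846244543/1769317032429772194762338850000*(u2 -
      25607328259552233448525149150/20602802816636448169846244543*u3)^2 +
      267801417006335522476767502644101/4635630633743200838215405022175000*(u3)^2 := by
    unfold qN7; ring
  rw [e]; positivity

/-- block 8 of certificate N -/
noncomputable def qN8 (d1 d2 d3 d4 u1 u2 u3 : ℝ) : ℝ :=
    383/2500*d1^2 + 27/2500*d1*d2 - 173/1250*d1*d3 - 619/2500*d1*d4 - 18/625*d1*u1 + 257/2500*d1*u2
      - 17/2500*d1*u3 + 439/5000*d2^2 + 301/1250*d2*d3 + 189/500*d2*d4 - 333/2500*d2*u1 + 3/625*d2*u2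
      - 459/2500*d2*u3 + 473/1250*d3^2 + 57/50*d3*d4 - 287/1250*d3*u1 - 81/500*d3*u2 - 337/1250*d3*u3
      + 4951/5000*d4^2 - 211/625*d4*u1 - 879/2500*d4*u2 - 216/625*d4*u3 + 6833/67500*u1^2 - 1/10*u1*u2
      + 173/500*u1*u3 + 653/5000*u2^2 - 179/625*u2*u3 + 913/2500*u3^2

theorem qN8_nonneg (d1 d2 d3 d4 u1 u2 u3 : ℝ) : 0 ≤ qN8 d1 d2 d3 d4 u1 u2 u3 := by
  have e : qN8 d1 d2 d3 d4 u1 u2 u3 =
      383/2500*(d1 + 27/766*d2 - 173/383*d3 - 619/766*d4 - 36/383*u1 + 257/766*u2 - 17/766*u3)^2 +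
      67109/766000*(d2 + 470474/335545*d3 + 740583/335545*d4 - 36162/47935*u1 + 2253/335545*u2 -
      70227/67109*u3)^2 + 36680823/209715625*(d3 + 101905427/73361646*d4 - 12010411/73361646*u1 -
      98327377/293446584*u2 - 1633535/36680823*u3)^2 + 461778479/3668082300*(d4 +
      956040307/23088923950*u1 - 19863222463/46177847900*u2 + 1379938643/4617784790*u3)^2 +
      140615495158399/3117004733250000*(u1 - 324652210914141/281230990316798*u2 +
      313833326203755/140615495158399*u3)^2 + 57942104920830387/5624619806335960000*(u2 -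
      65481385901821460/57942104920830387*u3)^2 + 5714954886988332769/289710524604151935000*(u3)^2 := by
    unfold qN8; ring
  rw [e]; positivity

theorem certN (x1 x2 x3 x4 x5 S z r : ℝ) (h12 : x2 ≤ x1) (h23 : x3 ≤ x2) (h34 : x4 ≤ x3)
    (h45 : x5 ≤ x4) (h5 : 0 ≤ x5) (hz : 0 ≤ z) (hr : 0 ≤ r)
    (hk : (x1 + x2 + x3 + x4 + x5)/2 ≤ S + z) (hw : 0 ≤ ((x1 + x2 + x3 + x4 + x5)/5 + (S - z)/2)) :
    z * (((x1 + x2 + x3 + x4 + x5)^2 - (x1^2 + x2^2 + x3^2 + x4^2 + x5^2))/2 + (x1 + x2 + x3 + x4 +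
      x5) * (S + r) + S^2/4 + S * r) + (((x1 + x2 + x3 + x4 + x5) - x1) * (x1 + (S - z)/2 - ((x1 + x2
      + x3 + x4 + x5)/5 + (S - z)/2)/4)^2/4 + ((x1 + x2 + x3 + x4 + x5) - x2) * (x2 + (S - z)/2 - ((x1
      + x2 + x3 + x4 + x5)/5 + (S - z)/2)/4)^2/4 + ((x1 + x2 + x3 + x4 + x5) - x3) * (x3 + (S - z)/2 -
      ((x1 + x2 + x3 + x4 + x5)/5 + (S - z)/2)/4)^2/4 + ((x1 + x2 + x3 + x4 + x5) - x4) * (x4 + (S -
      z)/2 - ((x1 + x2 + x3 + x4 + x5)/5 + (S - z)/2)/4)^2/4 + ((x1 + x2 + x3 + x4 + x5) - x5) * (x5 +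
      (S - z)/2 - ((x1 + x2 + x3 + x4 + x5)/5 + (S - z)/2)/4)^2/4 + ((x1 + x2 + x3 + x4 + x5)/5 + (S -
      z)/2)/4 * (((x1 + x2 + x3 + x4 + x5) - x1) * (x1 + (S - z)/2) + x1 * (x2 + (S - z)/2))) ≤
    7/108 * ((x1 + x2 + x3 + x4 + x5) + S + r + z)^3 := by
  have g0 := mul_nonneg h5 (qN0_nonneg (x1 - x2) (x2 - x3) (x3 - x4) (x4 - x5) (S - 2*x5) (z - 4*x5) (r - x5))
  have g1 := mul_nonneg hz (qN1_nonneg (x1 - x2) (x2 - x3) (x3 - x4) (x4 - x5) (S - 2*x5) (z - 4*x5) (r - x5))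
  have g2 := mul_nonneg hr (qN2_nonneg (x1 - x2) (x2 - x3) (x3 - x4) (x4 - x5) (S - 2*x5) (z - 4*x5) (r - x5))
  have g3 := mul_nonneg (sub_nonneg.2 hk) (qN3_nonneg (x1 - x2) (x2 - x3) (x3 - x4) (x4 - x5) (S - 2*x5) (z - 4*x5) (r - x5))
  have g4 := mul_nonneg (sub_nonneg.2 h12) (qN4_nonneg (x1 - x2) (x2 - x3) (x3 - x4) (x4 - x5) (S - 2*x5) (z - 4*x5) (r - x5))
  have g5 := mul_nonneg (sub_nonneg.2 h23) (qN5_nonneg (x1 - x2) (x2 - x3) (x3 - x4) (x4 - x5) (S - 2*x5) (z - 4*x5) (r - x5))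
  have g6 := mul_nonneg (sub_nonneg.2 h34) (qN6_nonneg (x1 - x2) (x2 - x3) (x3 - x4) (x4 - x5) (S - 2*x5) (z - 4*x5) (r - x5))
  have g7 := mul_nonneg (sub_nonneg.2 h45) (qN7_nonneg (x1 - x2) (x2 - x3) (x3 - x4) (x4 - x5) (S - 2*x5) (z - 4*x5) (r - x5))
  have g8 := mul_nonneg hw (qN8_nonneg (x1 - x2) (x2 - x3) (x3 - x4) (x4 - x5) (S - 2*x5) (z - 4*x5) (r - x5))
  have e : 7/108 * ((x1 + x2 + x3 + x4 + x5) + S + r + z)^3 - (z * (((x1 + x2 + x3 + x4 + x5)^2 - (x1^2 + x2^2 + x3^2 + x4^2 + x5^2))/2 + (x1 + x2 + x3 + x4 +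
      x5) * (S + r) + S^2/4 + S * r) + (((x1 + x2 + x3 + x4 + x5) - x1) * (x1 + (S - z)/2 - ((x1 + x2
      + x3 + x4 + x5)/5 + (S - z)/2)/4)^2/4 + ((x1 + x2 + x3 + x4 + x5) - x2) * (x2 + (S - z)/2 - ((x1
      + x2 + x3 + x4 + x5)/5 + (S - z)/2)/4)^2/4 + ((x1 + x2 + x3 + x4 + x5) - x3) * (x3 + (S - z)/2 -
      ((x1 + x2 + x3 + x4 + x5)/5 + (S - z)/2)/4)^2/4 + ((x1 + x2 + x3 + x4 + x5) - x4) * (x4 + (S -
      z)/2 - ((x1 + x2 + x3 + x4 + x5)/5 + (S - z)/2)/4)^2/4 + ((x1 + x2 + x3 + x4 + x5) - x5) * (x5 +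
      (S - z)/2 - ((x1 + x2 + x3 + x4 + x5)/5 + (S - z)/2)/4)^2/4 + ((x1 + x2 + x3 + x4 + x5)/5 + (S -
      z)/2)/4 * (((x1 + x2 + x3 + x4 + x5) - x1) * (x1 + (S - z)/2) + x1 * (x2 + (S - z)/2)))) =
      x5 * qN0 (x1 - x2) (x2 - x3) (x3 - x4) (x4 - x5) (S - 2*x5) (z - 4*x5) (r - x5) + z * qN1 (x1 -
      x2) (x2 - x3) (x3 - x4) (x4 - x5) (S - 2*x5) (z - 4*x5) (r - x5) + r * qN2 (x1 - x2) (x2 - x3)
      (x3 - x4) (x4 - x5) (S - 2*x5) (z - 4*x5) (r - x5) + (S + z - (x1 + x2 + x3 + x4 + x5)/2) * qN3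
      (x1 - x2) (x2 - x3) (x3 - x4) (x4 - x5) (S - 2*x5) (z - 4*x5) (r - x5) + (x1 - x2) * qN4 (x1 -
      x2) (x2 - x3) (x3 - x4) (x4 - x5) (S - 2*x5) (z - 4*x5) (r - x5) + (x2 - x3) * qN5 (x1 - x2) (x2
      - x3) (x3 - x4) (x4 - x5) (S - 2*x5) (z - 4*x5) (r - x5) + (x3 - x4) * qN6 (x1 - x2) (x2 - x3)
      (x3 - x4) (x4 - x5) (S - 2*x5) (z - 4*x5) (r - x5) + (x4 - x5) * qN7 (x1 - x2) (x2 - x3) (x3 -
      x4) (x4 - x5) (S - 2*x5) (z - 4*x5) (r - x5) + ((x1 + x2 + x3 + x4 + x5)/5 + (S - z)/2) * qN8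
      (x1 - x2) (x2 - x3) (x3 - x4) (x4 - x5) (S - 2*x5) (z - 4*x5) (r - x5) := by
    unfold qN0 qN1 qN2 qN3 qN4 qN5 qN6 qN7 qN8; ring
  linarith

end Pool.Agent.NJ

end MrgPart1

-- ======== part 2: formerly Pool.Agent.MP_16ca68_co.h95.CertI
section MrgPart2

set_option autoImplicit false

namespace Pool.Agent.NJ

/-- block 0 of certificate I -/
noncomputable def qI0 (d1 d2 d3 d4 u1 u2 u3 : ℝ) : ℝ :=
    1847/3750*d1^2 + 2567/1500*d1*d2 + 1406/625*d1*d3 + 919/375*d1*d4 + 2687/7500*d1*u1 -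
      1699/1875*d1*u2 + 2399/7500*d1*u3 + 15103/7500*d2^2 + 13501/2500*d2*d3 + 11467/1875*d2*d4 +
      1618/1875*d2*u1 - 17351/7500*d2*u2 + 2951/3750*d2*u3 + 20617/5000*d3^2 + 6047/625*d3*d4 +
      818/625*d3*u1 - 9111/2500*d3*u2 + 3041/2500*d3*u3 + 18871/3000*d4^2 + 3212/1875*d4*u1 -
      17843/3750*d4*u2 + 5953/3750*d4*u3 + 56773/67500*u1^2 - 11653/7500*u1*u2 + 2473/3750*u1*u3 +
      86531/67500*u2^2 - 8437/5625*u2*u3 + 90251/67500*u3^2

theorem qI0_nonneg (d1 d2 d3 d4 u1 u2 u3 : ℝ) : 0 ≤ qI0 d1 d2 d3 d4 u1 u2 u3 := by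
  have e : qI0 d1 d2 d3 d4 u1 u2 u3 =
      1847/3750*(d1 + 12835/7388*d2 + 4218/1847*d3 + 4595/1847*d4 + 2687/7388*u1 - 1699/1847*u2 +
      2399/7388*u3)^2 + 19474901/36940000*(d2 + 27561348/19474901*d3 + 34321828/19474901*d4 +
      4442497/19474901*u1 - 13654176/19474901*u2 + 4270937/19474901*u3)^2 +
      48568067153/97374505000*(d3 + 70536541560/48568067153*d4 + 7314210459/48568067153*u1 -
      25747690507/48568067153*u2 + 7725112512/48568067153*u3)^2 + 134153399955201/242840335765000*(d4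
      + 1983474642772/12195763632291*u1 - 52568374111238/134153399955201*u2 +
      18666759037730/134153399955201*u3)^2 + 396554995329517361/548809363453095000*(u1 -
      248469097856956659/396554995329517361*u2 + 121145663922947514/396554995329517361*u3)^2 +
      5732540233324625502049/58888416806433328108500*(u2 -
      36662316328637951567361/11465080466649251004098*u3)^2 +
      268697355199391757789353297/1547785862997648885553230000*(u3)^2 := by
    unfold qI0; ring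
  rw [e]; positivity

/-- block 1 of certificate I -/
noncomputable def qI1 (d1 d2 d3 d4 u1 u2 u3 : ℝ) : ℝ :=
    1161/5000*d1^2 + 813/1250*d1*d2 + 2013/2500*d1*d3 + 644/625*d1*d4 - 19/2500*d1*u1 -
      443/1250*d1*u2 + 413/2500*d1*u3 + 1457/2500*d2^2 + 178/125*d2*d3 + 4563/2500*d2*d4 +
      17/1250*d2*u1 - 801/1250*d2*u2 + 367/1250*d2*u3 + 2501/2500*d3^2 + 6313/2500*d3*d4 +
      73/1250*d3*u1 - 1133/1250*d3*u2 + 1009/2500*d3*u3 + 8469/5000*d4^2 + 14/125*d4*u1 -
      3069/2500*d4*u2 + 663/1250*d4*u3 + 7/108*u1^2 - 127/1250*u1*u2 + 2/125*u1*u3 + 2903/11250*u2^2 -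
      3329/11250*u2*u3 + 1109/4500*u3^2

theorem qI1_nonneg (d1 d2 d3 d4 u1 u2 u3 : ℝ) : 0 ≤ qI1 d1 d2 d3 d4 u1 u2 u3 := by
  have e : qI1 d1 d2 d3 d4 u1 u2 u3 =
      1161/5000*(d1 + 542/387*d2 + 671/387*d3 + 2576/1161*d4 - 19/1161*u1 - 886/1161*u2 +
      413/1161*u3)^2 + 41071/322500*(d2 + 47779/41071*d3 + 369689/246426*d4 + 11728/123213*u1 -
      1043/1839*u2 + 30106/123213*u3)^2 + 1067869/8214200*(d3 + 8236366/7280925*d4 +
      13360493/80090175*u1 - 38156902/80090175*u2 + 13790228/80090175*u3)^2 +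
      7113900511/72809250000*(d4 + 1580926548/7113900511*u1 - 3073374772/7113900511*u2 +
      722630208/7113900511*u3)^2 + 291336293928809/5282071129417500*(u1 -
      143207993845881/291336293928809*u2 + 4755117964221/582672587857618*u3)^2 +
      6810926934380269/327753330669910125*(u2 - 136604100338016289/54487415475042152*u3)^2 +
      60461968810733273269/817311232125632280000*(u3)^2 := by
    unfold qI1; ring
  rw [e]; positivity

/-- block 2 of certificate I -/
noncomputable def qI2 (d1 d2 d3 d4 u1 u2 u3 : ℝ) : ℝ :=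
    417/5000*d1^2 + 303/2500*d1*d2 + 69/500*d1*d3 + 471/2500*d1*d4 + 49/1250*d1*u1 - 221/2500*d1*u2
      + 17/500*d1*u3 + 209/2500*d2^2 + 211/1250*d2*d3 + 141/625*d2*d4 + 47/1250*d2*u1 - 62/625*d2*u2 +
      19/500*d2*u3 + 721/5000*d3^2 + 217/625*d3*d4 + 57/1250*d3*u1 - 361/2500*d3*u2 + 27/500*d3*u3 +
      327/1250*d4^2 + 37/625*d4*u1 - 521/2500*d4*u2 + 48/625*d4*u3 + 259/5625*u1^2 - 159/2500*u1*u2 +
      17/2500*u1*u3 + 7/108*u2^2 - 51/625*u2*u3 + 2467/22500*u3^2

theorem qI2_nonneg (d1 d2 d3 d4 u1 u2 u3 : ℝ) : 0 ≤ qI2 d1 d2 d3 d4 u1 u2 u3 := by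
  have e : qI2 d1 d2 d3 d4 u1 u2 u3 =
      417/5000*(d1 + 101/139*d2 + 115/139*d3 + 157/139*d4 + 98/417*u1 - 221/417*u2 + 85/417*u3)^2 +
      27499/695000*(d2 + 23813/27499*d3 + 30825/27499*d4 + 3168/27499*u1 - 12151/27499*u2 +
      4620/27499*u3)^2 + 7898133/137495000*(d3 + 7872592/7898133*d4 + 362560/7898133*u1 -
      939169/2632711*u2 + 987050/7898133*u3)^2 + 955917997/19745332500*(d4 - 5451569/955917997*u1 -
      562850403/1911835994*u2 + 181320421/1911835994*u3)^2 + 175465494857/4301630986500*(u1 -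
      17336436972/38144672795*u2 - 35797662066/877327474285*u3)^2 +
      141432788841713/10299061654650000*(u2 - 264653754134067/141432788841713*u3)^2 +
      406776321769326523/7319146822558647750*(u3)^2 := by
    unfold qI2; ring
  rw [e]; positivity

/-- block 3 of certificate I -/
noncomputable def qI3 (d1 d2 d3 d4 u1 u2 u3 : ℝ) : ℝ :=
    607/2500*d1^2 + 1591/2500*d1*d2 + 197/250*d1*d3 + 626/625*d1*d4 + 417/2500*d1*u1 - 228/625*d1*u2
      - 299/2500*d1*u3 + 1549/2500*d2^2 + 3691/2500*d2*d3 + 2331/1250*d2*d4 + 183/625*d2*u1 -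
      1687/2500*d2*u2 - 241/1250*d2*u3 + 1099/1000*d3^2 + 3357/1250*d3*d4 + 49/125*d3*u1 -
      2413/2500*d3*u2 - 599/2500*d3*u3 + 1809/1000*d4^2 + 308/625*d4*u1 - 804/625*d4*u2 -
      361/1250*d4*u3 + 803/4500*u1^2 - 161/500*u1*u2 - 13/250*u1*u3 + 6211/22500*u2^2 + 53/625*u2*u3 +
      7/108*u3^2

theorem qI3_nonneg (d1 d2 d3 d4 u1 u2 u3 : ℝ) : 0 ≤ qI3 d1 d2 d3 d4 u1 u2 u3 := by
  have e : qI3 d1 d2 d3 d4 u1 u2 u3 =
      607/2500*(d1 + 1591/1214*d2 + 985/607*d3 + 1252/607*d4 + 417/1214*u1 - 456/607*u2 -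
      299/1214*u3)^2 + 1229691/6070000*(d2 + 448868/409897*d3 + 1675804/1229691*d4 + 75067/409897*u1 -
      597026/1229691*u2 - 109439/1229691*u3)^2 + 444133017/2049485000*(d3 + 155628590/148044339*d4 +
      41063303/444133017*u1 - 161714729/444133017*u2 - 6182920/444133017*u3)^2 +
      39561000121/246740565000*(d4 + 2040317576/118683000363*u1 - 37007163902/118683000363*u2 +
      4948630004/118683000363*u3)^2 + 753592861889237/5340735016335000*(u1 -
      385491224634707/753592861889237*u2 - 10645652579818/753592861889237*u3)^2 +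
      42491136351714226/4238959848126958125*(u2 - 383571111743868613/339929090813713808*u3)^2 +
      1623142354296983753377/45890427259851364080000*(u3)^2 := by
    unfold qI3; ring
  rw [e]; positivity

/-- block 4 of certificate I -/
noncomputable def qI4 (d1 d2 d3 d4 u1 u2 u3 : ℝ) : ℝ :=
    67/2700*d1^2 - 41/500*d1*d2 - 533/2500*d1*d3 - 13/50*d1*d4 - 1699/45000*d1*u1 + 4997/45000*d1*u2
      - 272/5625*d1*u3 + 5179/22500*d2^2 + 2087/3750*d2*d3 + 15703/22500*d2*d4 + 1451/11250*d2*u1 -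
      3517/11250*d2*u2 + 2911/22500*d2*u3 + 689/625*d3^2 + 3866/1875*d3*d4 + 2099/7500*d3*u1 -
      1271/1500*d3*u2 + 2219/7500*d3*u3 + 32677/22500*d4^2 + 5291/22500*d4*u1 - 12083/11250*d4*u2 +
      133/450*d4*u3 + 2273/11250*u1^2 - 3329/11250*u1*u2 + 64/1125*u1*u3 + 1591/5625*u2^2 -
      6307/22500*u2*u3 + 3533/11250*u3^2

theorem qI4_nonneg (d1 d2 d3 d4 u1 u2 u3 : ℝ) : 0 ≤ qI4 d1 d2 d3 d4 u1 u2 u3 := by
  have e : qI4 d1 d2 d3 d4 u1 u2 u3 =
      67/2700*(d1 - 1107/670*d2 - 14391/3350*d3 - 351/67*d4 - 5097/6700*u1 + 14991/6700*u2 -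
      1632/1675*u3)^2 + 979489/6030000*(d2 + 439923/699635*d3 + 809012/979489*d4 + 16873/82310*u1 -
      3893881/9794890*u2 + 745954/4897445*u3)^2 + 5074471939/8745437500*(d3 +
      6788478095/10148943878*d4 + 662907163/10148943878*u1 - 2528288259/10148943878*u2 +
      249356791/5074471939*u3)^2 + 142386468856839/355213035730000*(d4 -
      4046223190268/47462156285613*u1 - 34146401542948/142386468856839*u2 -
      6533059375414/142386468856839*u3)^2 + 8328111700810183/47462156285613000*(u1 -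
      21650648011787546/41640558504050915*u2 + 735249097370189/83281117008101830*u3)^2 +
      49553634413913559357/1873825132682291175000*(u2 -
      272548133690084857513/99107268827827118714*u3)^2 +
      41854960828037780476673/495536344139135593570000*(u3)^2 := by
    unfold qI4; ring
  rw [e]; positivity

/-- block 5 of certificate I -/
noncomputable def qI5 (d1 d2 d3 d4 u1 u2 u3 : ℝ) : ℝ :=
    407/2250*d1^2 - 103/1250*d1*d2 + 132/625*d1*d3 + 143/1250*d1*d4 - 1/625*d1*u1 - 77/2500*d1*u2 +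
      3/250*d1*u3 + 133/1350*d2^2 + 162/625*d2*d3 + 328/625*d2*d4 + 4387/22500*d2*u1 -
      6881/22500*d2*u2 + 3559/22500*d2*u3 + 973/625*d3^2 + 19609/7500*d3*d4 + 3769/7500*d3*u1 -
      2174/1875*d3*u2 + 913/1875*d3*u3 + 22039/11250*d4^2 + 12967/22500*d4*u1 - 7267/4500*d4*u2 +
      13633/22500*d4*u3 + 2111/5625*u1^2 - 3482/5625*u1*u2 + 2153/11250*u1*u3 + 5491/11250*u2^2 -
      3293/5625*u2*u3 + 3272/5625*u3^2

theorem qI5_nonneg (d1 d2 d3 d4 u1 u2 u3 : ℝ) : 0 ≤ qI5 d1 d2 d3 d4 u1 u2 u3 := by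
  have e : qI5 d1 d2 d3 d4 u1 u2 u3 =
      407/2250*(d1 - 927/4070*d2 + 108/185*d3 + 117/370*d4 - 9/2035*u1 - 63/740*u2 + 27/814*u3)^2 +
      24487513/274725000*(d2 + 42212016/24487513*d3 + 75666987/24487513*d4 + 921813/844397*u1 -
      85944243/48975026*u2 + 22103130/24487513*u3)^2 + 18829130317/15304695625*(d3 +
      293514542473/451899127608*d4 + 30852315985/451899127608*u1 - 27649989035/112974781902*u2 +
      9299748547/112974781902*u3)^2 + 3869418608798599/6778486914120000*(d4 -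
      452986317378833/3869418608798599*u1 - 838262518712132/3869418608798599*u2 -
      90353470726796/3869418608798599*u3)^2 + 14829520047279155723/58041279131978985000*(u1 -
      15408772205083378067/29659040094558311446*u2 - 34303352830974886/14829520047279155723*u3)^2 +
      12705399785105718482359/296590400945583114460000*(u2 -
      38384999211695915629866/12705399785105718482359*u3)^2 +
      867290579265434816007624/7940874865691074051474375*(u3)^2 := by
    unfold qI5; ring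
  rw [e]; positivity

/-- block 6 of certificate I -/
noncomputable def qI6 (d1 d2 d3 d4 u1 u2 u3 : ℝ) : ℝ :=
    631/1875*d1^2 + 407/1250*d1*d2 - 331/2500*d1*d3 + 57/250*d1*d4 + 51/625*d1*u1 - 31/250*d1*u2 +
      207/2500*d1*u3 + 1564/1875*d2^2 + 479/1250*d2*d3 + 163/125*d2*d4 + 1017/2500*d2*u1 -
      169/250*d2*u2 + 37/100*d2*u3 + 97/100*d3^2 + 673/250*d3*d4 + 937/1250*d3*u1 - 6971/5000*d3*u2 +
      651/1000*d3*u3 + 18577/7500*d4^2 + 7907/7500*d4*u1 - 17053/7500*d4*u2 + 1844/1875*d4*u3 +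
      3937/7500*u1^2 - 3647/3750*u1*u2 + 2783/7500*u1*u3 + 2729/3750*u2^2 - 1729/1875*u2*u3 +
      1543/1875*u3^2

theorem qI6_nonneg (d1 d2 d3 d4 u1 u2 u3 : ℝ) : 0 ≤ qI6 d1 d2 d3 d4 u1 u2 u3 := by
  have e : qI6 d1 d2 d3 d4 u1 u2 u3 =
      631/1875*(d1 + 1221/2524*d2 - 993/5048*d3 + 855/2524*d4 + 153/1262*u1 - 465/2524*u2 +
      621/5048*u3)^2 + 14299303/18930000*(d2 + 8466429/28598606*d3 + 11298405/14299303*d4 +
      3476736/14299303*u1 - 5830575/14299303*u2 + 6245859/28598606*u3)^2 + 7960914331/8937064375*(d3 +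
      42602309045/31843657324*d4 + 46966587199/127374629296*u1 - 88385798423/127374629296*u2 +
      20362553187/63687314648*u3)^2 + 88928325180223/238827429930000*(d4 -
      68047521148679/355713300720892*u1 - 43513652954009/355713300720892*u2 -
      16082762226511/177856650360446*u3)^2 + 1211540511514089893/3557133007208920000*(u1 -
      656857355349509767/1211540511514089893*u2 + 102965190286731888/1211540511514089893*u3)^2 +
      679931895492518439089/12115405115140898930000*(u2 -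
      2144056512710521488298/679931895492518439089*u3)^2 +
      864883326030362091898387/6799318954925184390890000*(u3)^2 := by
    unfold qI6; ring
  rw [e]; positivity

/-- block 7 of certificate I -/
noncomputable def qI7 (d1 d2 d3 d4 u1 u2 u3 : ℝ) : ℝ :=
    367/900*d1^2 + 2697/2500*d1*d2 + 748/625*d1*d3 + 1361/1250*d1*d4 + 29/100*d1*u1 -
      1397/2500*d1*u2 + 323/1250*d1*u3 + 15371/11250*d2^2 + 7637/2500*d2*d3 + 1952/625*d2*d4 +
      887/1250*d2*u1 - 3749/2500*d2*u2 + 1601/2500*d2*u3 + 1269/500*d3^2 + 6433/1250*d3*d4 +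
      1359/1250*d3*u1 - 6017/2500*d3*u2 + 1247/1250*d3*u3 + 2287/675*d4^2 + 63779/45000*d4*u1 -
      35443/11250*d4*u2 + 11719/9000*d4*u3 + 749/1125*u1^2 - 28711/22500*u1*u2 + 5989/11250*u1*u3 +
      22189/22500*u2^2 - 6946/5625*u2*u3 + 11999/11250*u3^2

theorem qI7_nonneg (d1 d2 d3 d4 u1 u2 u3 : ℝ) : 0 ≤ qI7 d1 d2 d3 d4 u1 u2 u3 := by
  have e : qI7 d1 d2 d3 d4 u1 u2 u3 =
      367/900*(d1 + 24273/18350*d2 + 13464/9175*d3 + 12249/9175*d4 + 261/734*u1 - 12573/18350*u2 +
      2907/9175*u3)^2 + 539052871/825750000*(d2 + 607627206/539052871*d3 + 694851246/539052871*d4 +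
      19227825/77007553*u1 - 313962921/539052871*u2 + 17611704/77007553*u3)^2 +
      279771889014/336908044375*(d3 + 278213890849/279771889014*d4 + 44048153751/248686123568*u1 -
      491624762221/1119087556056*u2 + 189900282845/1119087556056*u3)^2 +
      396303591337297/524572291901250*(d4 + 83250549836385/396303591337297*u1 -
      733043526199011/1585214365349188*u2 + 612666418888341/3170428730698376*u3)^2 +
      146700892217615162291/285338585762853840000*(u1 - 87237413329744464898/146700892217615162291*u2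
      + 36332492570179198970/146700892217615162291*u3)^2 +
      1839684432590614788284453/26406160599170729212380000*(u2 -
      12506358812807383017219515/3679368865181229576568906*u3)^2 +
      1893358425191968978131351259/18396844325906147882844530000*(u3)^2 := by
    unfold qI7; ring
  rw [e]; positivity

theorem certI (x1 x2 x3 x4 x5 S z r : ℝ) (h12 : x2 ≤ x1) (h23 : x3 ≤ x2) (h34 : x4 ≤ x3)
    (h45 : x5 ≤ x4) (h5 : 0 ≤ x5) (hS : 0 ≤ S) (hz : 0 ≤ z) (hr : 0 ≤ r) :
    z * (((x1 + x2 + x3 + x4 + x5)^2 - (x1^2 + x2^2 + x3^2 + x4^2 + x5^2))/2 + (x1 + x2 + x3 + x4 +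
      x5) * (S + r) + S^2/4 + S * r) + (((x1 + x2 + x3 + x4 + x5) - x1) * (x1 + -(x1 + x2 + x3 + x4 +
      x5)/5)^2/4 + ((x1 + x2 + x3 + x4 + x5) - x2) * (x2 + -(x1 + x2 + x3 + x4 + x5)/5)^2/4 + ((x1 +
      x2 + x3 + x4 + x5) - x3) * (x3 + -(x1 + x2 + x3 + x4 + x5)/5)^2/4 + ((x1 + x2 + x3 + x4 + x5) -
      x4) * (x4 + -(x1 + x2 + x3 + x4 + x5)/5)^2/4 + ((x1 + x2 + x3 + x4 + x5) - x5) * (x5 + -(x1 + x2
      + x3 + x4 + x5)/5)^2/4) ≤
    7/108 * ((x1 + x2 + x3 + x4 + x5) + S + r + z)^3 := by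
  have g0 := mul_nonneg h5 (qI0_nonneg (x1 - x2) (x2 - x3) (x3 - x4) (x4 - x5) (S - 2*x5) (z - 4*x5) (r - x5))
  have g1 := mul_nonneg hS (qI1_nonneg (x1 - x2) (x2 - x3) (x3 - x4) (x4 - x5) (S - 2*x5) (z - 4*x5) (r - x5))
  have g2 := mul_nonneg hz (qI2_nonneg (x1 - x2) (x2 - x3) (x3 - x4) (x4 - x5) (S - 2*x5) (z - 4*x5) (r - x5))
  have g3 := mul_nonneg hr (qI3_nonneg (x1 - x2) (x2 - x3) (x3 - x4) (x4 - x5) (S - 2*x5) (z - 4*x5) (r - x5))
  have g4 := mul_nonneg (sub_nonneg.2 h12) (qI4_nonneg (x1 - x2) (x2 - x3) (x3 - x4) (x4 - x5) (S - 2*x5) (z - 4*x5) (r - x5))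
  have g5 := mul_nonneg (sub_nonneg.2 h23) (qI5_nonneg (x1 - x2) (x2 - x3) (x3 - x4) (x4 - x5) (S - 2*x5) (z - 4*x5) (r - x5))
  have g6 := mul_nonneg (sub_nonneg.2 h34) (qI6_nonneg (x1 - x2) (x2 - x3) (x3 - x4) (x4 - x5) (S - 2*x5) (z - 4*x5) (r - x5))
  have g7 := mul_nonneg (sub_nonneg.2 h45) (qI7_nonneg (x1 - x2) (x2 - x3) (x3 - x4) (x4 - x5) (S - 2*x5) (z - 4*x5) (r - x5))
  have e : 7/108 * ((x1 + x2 + x3 + x4 + x5) + S + r + z)^3 - (z * (((x1 + x2 + x3 + x4 + x5)^2 - (x1^2 + x2^2 + x3^2 + x4^2 + x5^2))/2 + (x1 + x2 + x3 + x4 +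
      x5) * (S + r) + S^2/4 + S * r) + (((x1 + x2 + x3 + x4 + x5) - x1) * (x1 + -(x1 + x2 + x3 + x4 +
      x5)/5)^2/4 + ((x1 + x2 + x3 + x4 + x5) - x2) * (x2 + -(x1 + x2 + x3 + x4 + x5)/5)^2/4 + ((x1 +
      x2 + x3 + x4 + x5) - x3) * (x3 + -(x1 + x2 + x3 + x4 + x5)/5)^2/4 + ((x1 + x2 + x3 + x4 + x5) -
      x4) * (x4 + -(x1 + x2 + x3 + x4 + x5)/5)^2/4 + ((x1 + x2 + x3 + x4 + x5) - x5) * (x5 + -(x1 + x2
      + x3 + x4 + x5)/5)^2/4)) =
      x5 * qI0 (x1 - x2) (x2 - x3) (x3 - x4) (x4 - x5) (S - 2*x5) (z - 4*x5) (r - x5) + S * qI1 (x1 -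
      x2) (x2 - x3) (x3 - x4) (x4 - x5) (S - 2*x5) (z - 4*x5) (r - x5) + z * qI2 (x1 - x2) (x2 - x3)
      (x3 - x4) (x4 - x5) (S - 2*x5) (z - 4*x5) (r - x5) + r * qI3 (x1 - x2) (x2 - x3) (x3 - x4) (x4 -
      x5) (S - 2*x5) (z - 4*x5) (r - x5) + (x1 - x2) * qI4 (x1 - x2) (x2 - x3) (x3 - x4) (x4 - x5) (S
      - 2*x5) (z - 4*x5) (r - x5) + (x2 - x3) * qI5 (x1 - x2) (x2 - x3) (x3 - x4) (x4 - x5) (S - 2*x5)
      (z - 4*x5) (r - x5) + (x3 - x4) * qI6 (x1 - x2) (x2 - x3) (x3 - x4) (x4 - x5) (S - 2*x5) (z -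
      4*x5) (r - x5) + (x4 - x5) * qI7 (x1 - x2) (x2 - x3) (x3 - x4) (x4 - x5) (S - 2*x5) (z - 4*x5)
      (r - x5) := by
    unfold qI0 qI1 qI2 qI3 qI4 qI5 qI6 qI7; ring
  linarith

end Pool.Agent.NJ

end MrgPart2

-- ======== part 3: formerly Pool.Agent.MP_16ca68_co.h95.CertC
section MrgPart3

set_option autoImplicit false

namespace Pool.Agent.NJ

/-- block 0 of certificate C -/
noncomputable def qC0 (d1 d2 d3 d4 u1 u2 u3 s : ℝ) : ℝ :=
    7373/135000*d1^2 - 9/1250*d1*d2 - 173/1250*d1*d3 - 589/2500*d1*d4 + 1379/45000*d1*u1 +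
      2297/45000*d1*u2 - 761/9000*d1*u3 - 4/25*d1*s + 1043/45000*d2^2 + 19/1875*d2*d3 +
      197/11250*d2*d4 - 59/22500*d2*u1 - 77/22500*d2*u2 + 83/11250*d2*u3 + 7/500*d2*s + 337/1000*d3^2
      + 2173/3750*d3*d4 - 1183/7500*d3*u1 - 1471/7500*d3*u2 + 1/6*d3*u3 - 351/2500*d3*s +
      37283/45000*d4^2 - 6931/22500*d4*u1 - 17111/45000*d4*u2 + 12859/45000*d4*u3 - 993/2500*d4*s +
      2357/18000*u1^2 + 719/9000*u1*u2 - 853/22500*u1*u3 + 807/2500*u1*s + 11479/90000*u2^2 -
      931/5625*u2*u3 + 563/1250*u2*s + 19723/90000*u3^2 + 191/3000*u3*s + 371/250*s^2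

theorem qC0_nonneg (d1 d2 d3 d4 u1 u2 u3 s : ℝ) : 0 ≤ qC0 d1 d2 d3 d4 u1 u2 u3 s := by
  have e : qC0 d1 d2 d3 d4 u1 u2 u3 s =
      7373/135000*(d1 - 486/7373*d2 - 9342/7373*d3 - 15903/7373*d4 + 4137/14746*u1 + 6891/14746*u2 -
      11415/14746*u3 - 10800/7373*s)^2 + 7611307/331785000*(d2 + 15240/691937*d3 + 328676/7611307*d4 -
      99910/7611307*u1 - 9550/7611307*u2 + 299303/7611307*u3 + 572895/7611307*s)^2 +
      862529337/3459685000*(d3 + 161973664/287509779*d4 - 205664188/862529337*u1 -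
      227398042/862529337*u2 + 102908935/862529337*u3 - 197896829/287509779*s)^2 +
      652625671061/1317753153750*(d4 - 395192426443/2237573729352*u1 - 775174809769/3915754026366*u2 +
      39409940071/559393432338*u3 - 1447173505111/2610502684244*s)^2 +
      434172700591913/4475147458704000*(u1 - 915216497960/434172700591913*u2 +
      138109199072608/2170863502959565*u3 + 422716442021786/434172700591913*s)^2 +
      2876783728059090163/36470506849720692000*(u2 - 8795809744758179549/14383918640295450815*u3 +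
      29758746773426554574/14383918640295450815*s)^2 +
      16234304806787562466339/107879389802215881112500*(u3 +
      44635004490108242633093/64937219227150249865356*s)^2 +
      5802198401439246413475366941/9740582884072537479803400000*(s)^2 := by
    unfold qC0; ring
  rw [e]; positivity

/-- block 1 of certificate C -/
noncomputable def qC1 (d1 d2 d3 d4 u1 u2 u3 s : ℝ) : ℝ :=
    707/5625*d1^2 + 371/2500*d1*d3 + 347/1250*d1*d4 - 49/2500*d1*u1 - 21/625*d1*u2 + 233/2500*d1*u3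
      + 139/500*d1*s + 629/67500*d2^2 - 1/45000*d2*u1 - 1/45000*d2*u2 - 1/45000*d2*u3 + 338/625*d3^2 +
      1247/1500*d3*d4 - 1169/7500*d3*u1 - 1541/7500*d3*u2 + 463/1875*d3*u3 + 769/2500*d3*s +
      30191/22500*d4^2 - 1561/4500*d4*u1 - 9821/22500*d4*u2 + 9097/22500*d4*u3 + 649/3750*d4*s +
      1079/9000*u1^2 + 334/5625*u1*u2 - 833/22500*u1*u3 + 247/3750*u1*s + 1187/9000*u2^2 -
      6521/22500*u2*u3 + 67/375*u2*s + 3581/9000*u3^2 + 217/1875*u3*s + 2962/1875*s^2

theorem qC1_nonneg (d1 d2 d3 d4 u1 u2 u3 s : ℝ) : 0 ≤ qC1 d1 d2 d3 d4 u1 u2 u3 s := by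
  have e : qC1 d1 d2 d3 d4 u1 u2 u3 s =
      707/5625*(d1 + 477/808*d3 + 3123/2828*d4 - 63/808*u1 - 27/202*u2 + 2097/5656*u3 + 6255/5656*s)^2
      + 629/67500*(d2 - 3/2516*u1 - 3/2516*u2 - 3/2516*u3)^2 + 401573/808000*(d3 + 4044766/6023595*d4
      - 874433/6023595*u1 - 1124924/6023595*u2 + 1162993/6023595*u3 + 289837/2007865*s)^2 +
      33888507567/35137637500*(d4 - 12035599618/101665522701*u1 - 28960628263/203331045402*u2 +
      9093019483/101665522701*u3 - 24274490453/203331045402*s)^2 +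
      146007108993321743/1534742730694296000*(u1 - 10413405226992757/730035544966608715*u2 +
      71089633052294387/730035544966608715*u3 + 62241570190709744/146007108993321743*s)^2 +
      2030776773058683308371/21901066348998261450000*(u2 -
      2372846450315358927326/2030776773058683308371*u3 +
      2310333103328522838535/2030776773058683308371*s)^2 +
      1151826342212801092614639/5076941932646708270927500*(u3 +
      3718988613369320717998829/6910958053276806555687834*s)^2 +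
      124284487196195987256837141677/103664370799152098335317510000*(s)^2 := by
    unfold qC1; ring
  rw [e]; positivity

/-- block 2 of certificate C -/
noncomputable def qC2 (d1 d2 d3 d4 u1 u2 u3 s : ℝ) : ℝ :=
    1453/7500*d1^2 + 9/50*d1*d2 - 29/250*d1*d3 + 587/2500*d1*d4 - 1/1250*d1*u1 - 17/2500*d1*u2 +
      151/2500*d1*u3 + 1061/2500*d1*s + 4793/15000*d2^2 - 143/1250*d2*d3 + 1239/2500*d2*d4 -
      27/1250*d2*u1 - 29/625*d2*u2 + 357/2500*d2*u3 + 1701/2500*d2*s + 349/2500*d3^2 + 83/1250*d3*d4 -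
      647/5000*d3*u1 - 651/5000*d3*u2 + 1/250*d3*u3 - 29/50*d3*s + 24299/15000*d4^2 - 2287/7500*d4*u1
      - 5393/15000*d4*u2 + 947/3000*d4*u3 + 322/625*d4*s + 3649/30000*u1^2 + 1183/15000*u1*u2 +
      37/3750*u1*u3 + 104/625*u1*s + 4207/30000*u2^2 - 1313/3750*u2*u3 + 617/2500*u2*s +
      17359/30000*u3^2 + 1181/5000*u3*s + 2641/1000*s^2

theorem qC2_nonneg (d1 d2 d3 d4 u1 u2 u3 s : ℝ) : 0 ≤ qC2 d1 d2 d3 d4 u1 u2 u3 s := by
  have e : qC2 d1 d2 d3 d4 u1 u2 u3 s =
      1453/7500*(d1 + 675/1453*d2 - 435/1453*d3 + 1761/2906*d4 - 3/1453*u1 - 51/2906*u2 + 453/2906*u3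
      + 3183/2906*s)^2 + 6052979/21795000*(d2 - 659424/6052979*d3 + 4212126/6052979*d4 -
      231336/6052979*u1 - 471219/6052979*u2 + 1250388/6052979*u3 + 5266134/6052979*s)^2 +
      899925157/7566223750*(d3 + 2705728385/3599700628*d4 - 3993518425/7199401256*u1 -
      4144673067/7199401256*u2 + 523320713/3599700628*u3 - 6057480221/3599700628*s)^2 +
      14547529648501/10799101884000*(d4 - 10285814780663/145475296485010*u1 -
      12007835672381/145475296485010*u2 + 4676696070179/72737648242505*u3 +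
      6010426204047/72737648242505*s)^2 + 226637112499617833/2909505929700200000*(u1 -
      21076752732312729/226637112499617833*u2 + 5126051320523234/17433624038432141*u3 -
      29909287063477044/226637112499617833*s)^2 + 202203119040197950037/2266371124996178330000*(u2 -
      31077440682993281759/18382101730927086367*u3 + 88255028547185883089/202203119040197950037*s)^2 +
      53721228616834264448783/183821017309270863670000*(u3 +
      23144355577765862534045/53721228616834264448783*s)^2 +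
      1051720535498713670537050089/590933514785176908936613000*(s)^2 := by
    unfold qC2; ring
  rw [e]; positivity

/-- block 3 of certificate C -/
noncomputable def qC3 (d1 d2 d3 d4 u1 u2 u3 s : ℝ) : ℝ :=
    1007/4500*d1^2 + 199/625*d1*d2 + 221/625*d1*d3 - 251/2500*d1*d4 - 153/2500*d1*u1 - 42/625*d1*u2
      + 77/1250*d1*u3 + 657/2500*d1*s + 3334/5625*d2^2 + 613/625*d2*d3 + 131/1250*d2*d4 - 23/100*d2*u1
      - 337/1250*d2*u2 + 121/625*d2*u3 + 26/125*d2*s + 749/500*d3^2 + 1247/2500*d3*d4 -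
      1253/2500*d3*u1 - 359/625*d3*u2 + 203/625*d3*u3 - 533/2500*d3*s + 20147/33750*d4^2 -
      10739/22500*d4*u1 - 2894/5625*d4*u2 + 116/1125*d4*u3 - 4179/2500*d4*s + 1153/5625*u1^2 +
      4931/22500*u1*u2 + 43/4500*u1*u3 + 869/1500*u1*s + 2801/11250*u2^2 - 2243/4500*u2*u3 +
      10529/15000*u2*s + 8453/11250*u3^2 + 1891/15000*u3*s + 28613/7500*s^2

theorem qC3_nonneg (d1 d2 d3 d4 u1 u2 u3 s : ℝ) : 0 ≤ qC3 d1 d2 d3 d4 u1 u2 u3 s := by
  have e : qC3 d1 d2 d3 d4 u1 u2 u3 s =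
      1007/4500*(d1 + 3582/5035*d2 + 3978/5035*d3 - 2259/10070*d4 - 1377/10070*u1 - 756/5035*u2 +
      693/5035*u3 + 5913/10070*s)^2 + 13579009/28321875*(d2 + 20653497/27158018*d3 +
      4991067/27158018*d4 - 21123711/108632072*u1 - 12563163/54316036*u2 + 2120976/13579009*u3 +
      1191717/54316036*s)^2 + 18349040717/16973761250*(d3 + 15076224071/73396162868*d4 -
      21118434049/146792325736*u1 - 11971101995/73396162868*u2 + 1376806616/18349040717*u3 -
      7414650601/36698081434*s)^2 + 5190875480289763/9908481987180000*(d4 -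
      3892634442069315/10381750960579526*u1 - 2062790443126173/5190875480289763*u2 +
      277839168853452/5190875480289763*u3 - 7564055134951368/5190875480289763*s)^2 +
      20237955206838631607/233589396613039335000*(u1 - 4673086023911306362/20237955206838631607*u2 +
      21366392751660995275/40475910413677263214*u3 - 3726173103762469485/40475910413677263214*s)^2 +
      258478003709703834824/2529744400854828950875*(u2 -
      19463125868201832787727/10339120148388153392960*u3 +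
      6537059000753925124709/20678240296776306785920*s)^2 +
      17660836943244461281669833/51695600741940766964800000*(u3 +
      51355350630340257530706727/105965021659466767690018998*s)^2 +
      31661837405332550281643948927371/12715802599136012122802279760000*(s)^2 := by
    unfold qC3; ring
  rw [e]; positivity

/-- block 4 of certificate C -/
noncomputable def qC4 (d1 d2 d3 d4 u1 u2 u3 s : ℝ) : ℝ :=
    3989/15000*d1^2 + 1281/2500*d1*d2 + 797/1250*d1*d3 + 1749/2500*d1*d4 - 44/625*d1*u1 -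
      87/1250*d1*u2 + 67/1250*d1*u3 - 1253/2500*d1*s + 6491/7500*d2^2 + 1023/625*d2*d3 + 211/125*d2*d4
      - 139/500*d2*u1 - 767/2500*d2*u2 + 21/125*d2*u3 - 182/125*d2*s + 1417/625*d3^2 + 7409/2500*d3*d4
      - 149/250*d3*u1 - 402/625*d3*u2 + 151/500*d3*u3 - 6921/2500*d3*s + 51259/15000*d4^2 -
      827/1250*d4*u1 - 1737/2500*d4*u2 + 281/625*d4*u3 - 7399/2500*d4*s + 61483/270000*u1^2 +
      667/3000*u1*u2 + 223/1500*u1*u3 + 587/500*u1*s + 3041/10800*u2^2 - 3001/5625*u2*u3 +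
      137/100*u2*s + 267773/270000*u3^2 + 67/2500*u3*s + 3523/1250*s^2

theorem qC4_nonneg (d1 d2 d3 d4 u1 u2 u3 s : ℝ) : 0 ≤ qC4 d1 d2 d3 d4 u1 u2 u3 s := by
  have e : qC4 d1 d2 d3 d4 u1 u2 u3 s =
      3989/15000*(d1 + 3843/3989*d2 + 4782/3989*d3 + 5247/3989*d4 - 528/3989*u1 - 522/3989*u2 +
      402/3989*u3 - 3759/3989*s)^2 + 37016549/59835000*(d2 + 30591738/37016549*d3 +
      30336519/37016549*d4 - 6287961/37016549*u1 - 7172643/37016549*u2 + 3481254/37016549*u3 -
      29114043/37016549*s)^2 + 33835302188/23135343125*(d3 + 119092682437/270682417504*d4 -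
      7817606761/67670604376*u1 - 16732790601/135341208752*u2 + 13101928231/270682417504*u3 -
      126163829541/270682417504*s)^2 + 1834040837252093/812047252512000*(d4 -
      100726433114916/1834040837252093*u1 - 502782446265354/9170204186260465*u2 +
      449554202559531/9170204186260465*u3 - 1833163680787473/9170204186260465*s)^2 +
      88576665924152155349/495191026058065110000*(u1 + 28972776794036382153/88576665924152155349*u2 +
      50520676445823714732/88576665924152155349*u3 + 182047755984129510822/88576665924152155349*s)^2 +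
      12287324072811942245568547/59789249498802704860575000*(u2 -
      16174374140893097521322778/12287324072811942245568547*u3 +
      1155844545945392688505677/722783768988937779151091*s)^2 +
      1859280393911220933333951076061/3317577499659224406303507690000*(u3 +
      1202520547506945682708326790470/1859280393911220933333951076061*s)^2 +
      1282978497526183379973996761870719/4648200984778052333334877690152500*(s)^2 := by
    unfold qC4; ring
  rw [e]; positivity

/-- block 5 of certificate C -/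
noncomputable def qC5 (d1 d2 d3 d4 u1 u2 u3 s : ℝ) : ℝ :=
    219/1250*d1^2 + 141/500*d1*d2 + 161/500*d1*d3 + 268/625*d1*d4 - 747/2500*d1*u1 - 43/1250*d1*u2 +
      243/1250*d1*u3 + 31/2500*d1*s + 287/1000*d2^2 + 711/1250*d2*d3 + 483/625*d2*d4 - 1229/2500*d2*u1
      - 259/2500*d2*u2 + 43/125*d2*u3 - 139/2500*d2*s + 27/50*d3^2 + 776/625*d3*d4 - 1843/2500*d3*u1 -
      161/625*d3*u2 + 623/1250*d3*u3 - 491/1250*d3*s + 646/625*d4^2 - 2583/2500*d4*u1 - 203/500*d4*u2
      + 1743/2500*d4*u3 - 169/250*d4*s + 43931/135000*u1^2 + 341/2500*u1*u2 - 274/625*u1*u3 +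
      22/625*u1*s + 10289/45000*u2^2 - 203/4500*u2*u3 + 1769/1250*u2*s + 26381/45000*u3^2 +
      489/500*u3*s + 45331/15000*s^2

theorem qC5_nonneg (d1 d2 d3 d4 u1 u2 u3 s : ℝ) : 0 ≤ qC5 d1 d2 d3 d4 u1 u2 u3 s := by
  have e : qC5 d1 d2 d3 d4 u1 u2 u3 s =
      219/1250*(d1 + 235/292*d2 + 805/876*d3 + 268/219*d4 - 249/292*u1 - 43/438*u2 + 81/146*u3 +
      31/876*s)^2 + 50669/292000*(d2 + 226049/253345*d3 + 312224/253345*d4 - 183323/253345*u1 -
      55418/253345*u2 + 27382/50669*u3 - 47873/253345*s)^2 + 964874141/3800175000*(d3 +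
      2143612/2336257*d4 - 453261087/964874141*u1 - 300693277/964874141*u2 + 289602000/964874141*u3 -
      656824552/964874141*s)^2 + 61310192/208594375*(d4 - 812883431/3433370752*u1 -
      730909387/3433370752*u2 + 515855495/3433370752*u3 - 856171447/1716685376*s)^2 +
      6633029503885921/191427586277760000*(u1 - 4961479972698531/6633029503885921*u2 -
      4250267063379009/6633029503885921*u3 - 22347288514554462/6633029503885921*s)^2 +
      9628381675878434587/59697265534973289000*(u2 + 7176268902364995119/48141908379392172935*u3 +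
      157793160776537783016/48141908379392172935*s)^2 +
      104545640279937649000751/240709541896960864675000*(u3 +
      101958695959052996161634/104545640279937649000751*s)^2 +
      224062072934125809712885549/784092302099532367505632500*(s)^2 := by
    unfold qC5; ring
  rw [e]; positivity

/-- block 6 of certificate C -/
noncomputable def qC6 (d1 d2 d3 d4 u1 u2 u3 s : ℝ) : ℝ :=
    783/5000*d1^2 + 751/2500*d1*d2 + 943/2500*d1*d3 + 318/625*d1*d4 - 249/1250*d1*u1 - 38/125*d1*u2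
      + 47/500*d1*u3 - 2113/2500*d1*s + 287/1000*d2^2 + 327/500*d2*d3 + 557/625*d2*d4 - 41/125*d2*u1 -
      321/625*d2*u2 + 221/1250*d2*u3 - 1689/1250*d2*s + 557/1000*d3^2 + 3437/2500*d3*d4 -
      633/1250*d3*u1 - 977/1250*d3*u2 + 369/1250*d3*u3 - 1264/625*d3*s + 2623/2500*d4^2 -
      1791/2500*d4*u1 - 679/625*d4*u2 + 1019/2500*d4*u3 - 7039/2500*d4*s + 9839/45000*u1^2 +
      483/1250*u1*u2 - 239/2500*u1*u3 + 3289/2500*u1*s + 45281/135000*u2^2 - 204/625*u2*u3 +
      1008/625*u2*s + 10631/45000*u3^2 - 1247/2500*u3*s + 3877/1500*s^2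

theorem qC6_nonneg (d1 d2 d3 d4 u1 u2 u3 s : ℝ) : 0 ≤ qC6 d1 d2 d3 d4 u1 u2 u3 s := by
  have e : qC6 d1 d2 d3 d4 u1 u2 u3 s =
      783/5000*(d1 + 751/783*d2 + 943/783*d3 + 424/261*d4 - 166/261*u1 - 760/783*u2 + 235/783*u3 -
      2113/783*s)^2 + 139901/978750*(d2 + 143003/139901*d3 + 197313/139901*d4 - 134031/279802*u1 -
      108653/139901*u2 + 169601/559604*u3 - 1058111/559604*s)^2 + 12627019/69950500*(d3 +
      122377293/126270190*d4 - 22124933/63135095*u1 - 32969951/63135095*u2 + 16338531/63135095*u3 -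
      79037516/63135095*s)^2 + 114930876191/631350950000*(d4 - 24319636092/114930876191*u1 -
      30521933474/114930876191*u2 + 13305422154/114930876191*u3 - 76443580964/114930876191*s)^2 +
      238370592026039/2585944714297500*(u1 + 218171499597/238370592026039*u2 +
      244881367301169/953482368104156*u3 + 1600610613000669/953482368104156*s)^2 +
      1274241675116909881/32180029923515265000*(u2 - 3473244624972953187/2548483350233819762*u3 +
      2317155145931386953/2548483350233819762*s)^2 +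
      52685564381537877585583/458727003042087557160000*(u3 +
      18885522172301324472699/52685564381537877585583*s)^2 +
      207461348521511708654433643/790283465723068163783745000*(s)^2 := by
    unfold qC6; ring
  rw [e]; positivity

/-- block 7 of certificate C -/
noncomputable def qC7 (d1 d2 d3 d4 u1 u2 u3 s : ℝ) : ℝ :=
    69/250*d1^2 + 839/1250*d1*d2 + 2369/2500*d1*d3 + 1521/1250*d1*d4 + 413/2500*d1*u1 -
      1459/2500*d1*u2 - 93/625*d1*u3 - 1591/2500*d1*s + 3889/5000*d2^2 + 1236/625*d2*d3 +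
      3193/1250*d2*d4 + 811/2500*d2*u1 - 3023/2500*d2*u2 - 643/2500*d2*u3 - 127/100*d2*s +
      1797/1000*d3^2 + 1039/250*d3*d4 + 253/625*d3*u1 - 2453/1250*d3*u2 - 919/2500*d3*u3 -
      5599/2500*d3*s + 3863/1250*d4^2 + 1287/2500*d4*u1 - 6487/2500*d4*u2 - 47/100*d4*u3 -
      1857/625*d4*s + 17533/22500*u1^2 - 28/125*u1*u2 - 359/2500*u1*u3 + 1648/625*u1*s +
      13969/22500*u2^2 + 129/625*u2*u3 + 71/50*u2*s + 7/108*u3^2 + 7/250*u3*s + 103/25*s^2

theorem qC7_nonneg (d1 d2 d3 d4 u1 u2 u3 s : ℝ) : 0 ≤ qC7 d1 d2 d3 d4 u1 u2 u3 s := by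
  have e : qC7 d1 d2 d3 d4 u1 u2 u3 s =
      69/250*(d1 + 839/690*d2 + 103/60*d3 + 507/230*d4 + 413/1380*u1 - 1459/1380*u2 - 31/115*u3 -
      1591/1380*s)^2 + 79723/215625*(d2 + 1423769/1275568*d3 + 927051/637784*d4 + 213083/1275568*u1 -
      861769/1275568*u2 - 65781/637784*u3 - 855901/1275568*s)^2 + 6671334767/12755680000*(d3 +
      5532383994/6671334767*d4 - 106328403/6671334767*u1 - 2569849711/6671334767*u2 -
      172399702/6671334767*u3 - 3783915995/6671334767*s)^2 + 1014765477791/1667833691750*(d4 -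
      251587990457/20295309555820*u1 - 4136886491971/20295309555820*u2 - 730637887/101986480180*u3 -
      1480769048909/5073827388955*s)^2 + 679469095875524897/913288930011900000*(u1 +
      11239970066586531/679469095875524897*u2 - 39666976340841387/679469095875524897*u3 +
      1322573069646146376/679469095875524897*s)^2 + 154769550761556783293/3822013664299827545625*(u2 -
      201757915911433781691/1238156406092454266344*u3 +
      241223544137902323177/309539101523113566586*s)^2 +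
      6156962414645402711007341/167151114822481325956440000*(u3 -
      2777619429647933342313204/6156962414645402711007341*s)^2 +
      7938395601480028598074572091/15392406036613506777518352500*(s)^2 := by
    unfold qC7; ring
  rw [e]; positivity

/-- block 8 of certificate C -/
noncomputable def qC8 (d1 d2 d3 d4 u1 u2 u3 s : ℝ) : ℝ :=
    51/2500*d1^2 - 13/2500*d1*d3 - 3/1250*d1*d4 + 9/500*d1*u1 + 9/625*d1*u2 + 3/500*d1*u3 +
      23/250*d1*s + 23/2500*d2^2 + 1/3750*d2*s + 46/625*d3^2 + 16/625*d3*d4 - 29/500*d3*u1 -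
      43/625*d3*u2 - 17/500*d3*u3 - 891/2500*d3*s + 689/2500*d4^2 - 53/625*d4*u1 - 37/500*d4*u2 -
      103/2500*d4*u3 - 752/1875*d4*s + 1303/5000*u1^2 + 3/20*u1*u2 + 183/1250*u1*u3 + 11791/7500*u1*s
      + 1353/5000*u2^2 + 1/10*u2*u3 + 4282/1875*u2*s + 1241/5000*u3^2 + 1477/1250*u3*s + 8329/1250*s^2

theorem qC8_nonneg (d1 d2 d3 d4 u1 u2 u3 s : ℝ) : 0 ≤ qC8 d1 d2 d3 d4 u1 u2 u3 s := by
  have e : qC8 d1 d2 d3 d4 u1 u2 u3 s =
      51/2500*(d1 - 13/102*d3 - 1/17*d4 + 15/34*u1 + 6/17*u2 + 5/34*u3 + 115/51*s)^2 + 23/2500*(d2 +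
      1/69*s)^2 + 37367/510000*(d3 + 150/869*d4 - 14205/37367*u1 - 17076/37367*u2 - 8475/37367*u3 -
      2044/869*s)^2 + 118769/434500*(d4 - 80519/593845*u1 - 133813/1187690*u2 - 76277/1187690*u3 -
      1095461/1781535*s)^2 + 30772101471/127676675000*(u1 + 7011942716/30772101471*u2 +
      8066486599/30772101471*u3 + 86496990388/30772101471*s)^2 + 72860303761663/307721014710000*(u2 +
      7684701710597/72860303761663*u3 + 24437715259930/6623663978333*s)^2 +
      81482216406187261/364301518808315000*(u3 + 288994561314857431/244446649218561783*s)^2 +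
      5724101554589086337643/9370454886711535015000*(s)^2 := by
    unfold qC8; ring
  rw [e]; positivity

theorem certC (x1 x2 x3 x4 x5 S z r : ℝ) (h12 : x2 ≤ x1) (h23 : x3 ≤ x2) (h34 : x4 ≤ x3)
    (h45 : x5 ≤ x4) (h5 : 0 ≤ x5) (hS : 0 ≤ S) (hz : 0 ≤ z) (hr : 0 ≤ r)
    (hk : S + z ≤ (x1 + x2 + x3 + x4 + x5)/2) :
    z * (((x1 + x2 + x3 + x4 + x5)^2 - (x1^2 + x2^2 + x3^2 + x4^2 + x5^2))/2 + (x1 + x2 + x3 + x4 +
      x5) * (S + r) + S^2/4 + S * r) + (((x1 + x2 + x3 + x4 + x5) - x1) * (x1 + (S - z)/2)^2/4 + ((x1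
      + x2 + x3 + x4 + x5) - x2) * (x2 + (S - z)/2)^2/4 + ((x1 + x2 + x3 + x4 + x5) - x3) * (x3 + (S -
      z)/2)^2/4 + ((x1 + x2 + x3 + x4 + x5) - x4) * (x4 + (S - z)/2)^2/4 + ((x1 + x2 + x3 + x4 + x5) -
      x5) * (x5 + (S - z)/2)^2/4) ≤
    7/108 * ((x1 + x2 + x3 + x4 + x5) + S + r + z)^3 := by
  have g0 := mul_nonneg (sub_nonneg.2 h12) (qC0_nonneg (x1 - x2) (x2 - x3) (x3 - x4) (x4 - x5) (S - 2*x5) (z - 4*x5) (r - x5) x5)
  have g1 := mul_nonneg (sub_nonneg.2 h23) (qC1_nonneg (x1 - x2) (x2 - x3) (x3 - x4) (x4 - x5) (S - 2*x5) (z - 4*x5) (r - x5) x5)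
  have g2 := mul_nonneg (sub_nonneg.2 h34) (qC2_nonneg (x1 - x2) (x2 - x3) (x3 - x4) (x4 - x5) (S - 2*x5) (z - 4*x5) (r - x5) x5)
  have g3 := mul_nonneg (sub_nonneg.2 h45) (qC3_nonneg (x1 - x2) (x2 - x3) (x3 - x4) (x4 - x5) (S - 2*x5) (z - 4*x5) (r - x5) x5)
  have g4 := mul_nonneg h5 (qC4_nonneg (x1 - x2) (x2 - x3) (x3 - x4) (x4 - x5) (S - 2*x5) (z - 4*x5) (r - x5) x5)
  have g5 := mul_nonneg hS (qC5_nonneg (x1 - x2) (x2 - x3) (x3 - x4) (x4 - x5) (S - 2*x5) (z - 4*x5) (r - x5) x5)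
  have g6 := mul_nonneg hz (qC6_nonneg (x1 - x2) (x2 - x3) (x3 - x4) (x4 - x5) (S - 2*x5) (z - 4*x5) (r - x5) x5)
  have g7 := mul_nonneg hr (qC7_nonneg (x1 - x2) (x2 - x3) (x3 - x4) (x4 - x5) (S - 2*x5) (z - 4*x5) (r - x5) x5)
  have g8 := mul_nonneg (sub_nonneg.2 hk) (qC8_nonneg (x1 - x2) (x2 - x3) (x3 - x4) (x4 - x5) (S - 2*x5) (z - 4*x5) (r - x5) x5)
  have e : 7/108 * ((x1 + x2 + x3 + x4 + x5) + S + r + z)^3 - (z * (((x1 + x2 + x3 + x4 + x5)^2 - (x1^2 + x2^2 + x3^2 + x4^2 + x5^2))/2 + (x1 + x2 + x3 + x4 +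
      x5) * (S + r) + S^2/4 + S * r) + (((x1 + x2 + x3 + x4 + x5) - x1) * (x1 + (S - z)/2)^2/4 + ((x1
      + x2 + x3 + x4 + x5) - x2) * (x2 + (S - z)/2)^2/4 + ((x1 + x2 + x3 + x4 + x5) - x3) * (x3 + (S -
      z)/2)^2/4 + ((x1 + x2 + x3 + x4 + x5) - x4) * (x4 + (S - z)/2)^2/4 + ((x1 + x2 + x3 + x4 + x5) -
      x5) * (x5 + (S - z)/2)^2/4)) =
      (x1 - x2) * qC0 (x1 - x2) (x2 - x3) (x3 - x4) (x4 - x5) (S - 2*x5) (z - 4*x5) (r - x5) x5 + (x2
      - x3) * qC1 (x1 - x2) (x2 - x3) (x3 - x4) (x4 - x5) (S - 2*x5) (z - 4*x5) (r - x5) x5 + (x3 -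
      x4) * qC2 (x1 - x2) (x2 - x3) (x3 - x4) (x4 - x5) (S - 2*x5) (z - 4*x5) (r - x5) x5 + (x4 - x5)
      * qC3 (x1 - x2) (x2 - x3) (x3 - x4) (x4 - x5) (S - 2*x5) (z - 4*x5) (r - x5) x5 + x5 * qC4 (x1 -
      x2) (x2 - x3) (x3 - x4) (x4 - x5) (S - 2*x5) (z - 4*x5) (r - x5) x5 + S * qC5 (x1 - x2) (x2 -
      x3) (x3 - x4) (x4 - x5) (S - 2*x5) (z - 4*x5) (r - x5) x5 + z * qC6 (x1 - x2) (x2 - x3) (x3 -
      x4) (x4 - x5) (S - 2*x5) (z - 4*x5) (r - x5) x5 + r * qC7 (x1 - x2) (x2 - x3) (x3 - x4) (x4 -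
      x5) (S - 2*x5) (z - 4*x5) (r - x5) x5 + ((x1 + x2 + x3 + x4 + x5)/2 - (S + z)) * qC8 (x1 - x2)
      (x2 - x3) (x3 - x4) (x4 - x5) (S - 2*x5) (z - 4*x5) (r - x5) x5 := by
    unfold qC0 qC1 qC2 qC3 qC4 qC5 qC6 qC7 qC8; ring
  linarith

end Pool.Agent.NJ

end MrgPart3

-- ======== part 4: formerly Pool.Agent.MP_16ca68_co.h95.Key
section MrgPart4

set_option autoImplicit false

namespace Pool.Agent.NJ

open Finset

/-- The finite dimensional inequality behind the forest bound. -/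
theorem key (x : Fin 5 → ℝ) (hx : ∀ U, 0 ≤ x U) (S z r T : ℝ) (hS : 0 ≤ S) (hz : 0 ≤ z)
    (hr : 0 ≤ r)
    (hT : ∀ (ω β : ℝ) (H : Fin 5 → ℝ), 0 ≤ β → (S - z) / 2 ≤ ω →
      (∀ U W, W ≠ U → x W + ω ≤ H U) →
      T ≤ ∑ W, ((∑ U, x U) - x W) * (x W + ω - β) ^ 2 / 4 + β * ∑ U, x U * H U) :
    z * (((∑ U, x U) ^ 2 - ∑ U, x U ^ 2) / 2 + (∑ U, x U) * (S + r) + S ^ 2 / 4 + S * r) + T ≤
      7 / 108 * ((∑ U, x U) + S + r + z) ^ 3 := by
  classical
  set π := Tuple.sort x with hπ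
  have hmono : Monotone (x ∘ π) := Tuple.monotone_sort x
  have h12 : x (π 3) ≤ x (π 4) := hmono (show (3 : Fin 5) ≤ 4 by decide)
  have h23 : x (π 2) ≤ x (π 3) := hmono (show (2 : Fin 5) ≤ 3 by decide)
  have h34 : x (π 1) ≤ x (π 2) := hmono (show (1 : Fin 5) ≤ 2 by decide)
  have h45 : x (π 0) ≤ x (π 1) := hmono (show (0 : Fin 5) ≤ 1 by decide)
  have hsum : ∀ f : Fin 5 → ℝ, ∑ U, f U = f (π 4) + f (π 3) + f (π 2) + f (π 1) + f (π 0) := by
    intro f
    rw [← Equiv.sum_comp π f, Fin.sum_univ_five]; ring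
  have hle4 : ∀ W, x W ≤ x (π 4) := by
    intro W
    have := hmono (show π.symm W ≤ 4 from Fin.le_last _)
    simpa using this
  have hle3 : ∀ W, W ≠ π 4 → x W ≤ x (π 3) := by
    intro W hW
    have h1 : π.symm W ≠ 4 := by
      intro h; apply hW; rw [← h]; simp
    have h2 : π.symm W ≤ 3 := by
      generalize π.symm W = i at h1
      revert i; decide
    have := hmono h2
    simpa using this
  set a := ∑ U, x U with ha
  have ha' : a = x (π 4) + x (π 3) + x (π 2) + x (π 1) + x (π 0) := hsum x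
  by_cases hw : a / 5 + (S - z) / 2 ≤ 0
  · have h1 := hT (-a / 5) 0 (fun _ => x (π 4) + -a / 5) le_rfl (by linarith)
      (fun U W _ => by linarith [hle4 W])
    have h2 := certI (x (π 4)) (x (π 3)) (x (π 2)) (x (π 1)) (x (π 0)) S z r h12 h23 h34 h45
      (hx _) hS hz hr
    rw [hsum, zero_mul, add_zero] at h1
    simp only [sub_zero] at h1
    rw [hsum (fun U => x U ^ 2)]
    rw [← ha'] at h2
    linarith
  · by_cases hk : S + z ≤ a / 2
    · have h1 := hT ((S - z) / 2) 0 (fun _ => x (π 4) + (S - z) / 2) le_rfl le_rfl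
        (fun U W _ => by linarith [hle4 W])
      have h2 := certC (x (π 4)) (x (π 3)) (x (π 2)) (x (π 1)) (x (π 0)) S z r h12 h23 h34 h45
        (hx _) hS hz hr (by rw [← ha']; exact hk)
      rw [hsum, zero_mul, add_zero] at h1
      simp only [sub_zero] at h1
      rw [hsum (fun U => x U ^ 2)]
      rw [← ha'] at h2
      linarith
    · have h1 := hT ((S - z) / 2) ((a / 5 + (S - z) / 2) / 4)
        (fun U => if U = π 4 then x (π 3) + (S - z) / 2 else x (π 4) + (S - z) / 2)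
        (by linarith) le_rfl
        (fun U W hW => by
          by_cases hU : U = π 4
          · rw [if_pos hU]; linarith [hle3 W (hU ▸ hW)]
          · rw [if_neg hU]; linarith [hle4 W])
      have h2 := certN (x (π 4)) (x (π 3)) (x (π 2)) (x (π 1)) (x (π 0)) S z r h12 h23 h34 h45
        (hx _) hz hr (by rw [← ha']; linarith) (by rw [← ha']; linarith)
      rw [hsum, hsum (fun U => x U * _)] at h1
      have n3 : π 3 ≠ π 4 := fun h => absurd (π.injective h) (by decide)
      have n2 : π 2 ≠ π 4 := fun h => absurd (π.injective h) (by decide)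
      have n1 : π 1 ≠ π 4 := fun h => absurd (π.injective h) (by decide)
      have n0 : π 0 ≠ π 4 := fun h => absurd (π.injective h) (by decide)
      simp only [if_true, if_neg n3, if_neg n2, if_neg n1, if_neg n0] at h1
      rw [hsum (fun U => x U ^ 2)]
      rw [← ha'] at h2
      have e : x (π 4) * (x (π 3) + (S - z) / 2) + x (π 3) * (x (π 4) + (S - z) / 2) +
          x (π 2) * (x (π 4) + (S - z) / 2) + x (π 1) * (x (π 4) + (S - z) / 2) +
          x (π 0) * (x (π 4) + (S - z) / 2) =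
          (a - x (π 4)) * (x (π 4) + (S - z) / 2) + x (π 4) * (x (π 3) + (S - z) / 2) := by
        rw [ha']; ring
      rw [e] at h1
      linarith

end Pool.Agent.NJ

end MrgPart4

-- ======== part 5: formerly Pool.Agent.MP_16ca68_co.h95.Forest
section MrgPart5

set_option autoImplicit false

namespace Pool.Agent.NJ

open Finset

variable {F : Type} [Fintype F]

/-- Sum over all ordered edges of the lift. -/
noncomputable def arcSum (σ : Fin 5 → Fin 5 → F → F) (f : Fin 5 × F → Fin 5 × F → ℝ) : ℝ :=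
  ∑ u, ∑ W, if W = u.1 then 0 else f u (nb σ u W)

theorem arcSum_swap {σ : Fin 5 → Fin 5 → F → F} (h : Inv σ) (f : Fin 5 × F → Fin 5 × F → ℝ) :
    arcSum σ f = arcSum σ (fun u v => f v u) := by
  unfold arcSum
  rw [← Fintype.sum_prod_type', ← Fintype.sum_prod_type']
  have hinv : Function.Involutive (fun p : (Fin 5 × F) × Fin 5 => (nb σ p.1 p.2, p.1.1)) := by
    intro p
    simp only [nb_nb h]
    rfl
  rw [← Equiv.sum_comp hinv.toPerm]
  refine sum_congr rfl fun p _ => ?_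
  simp only [Function.Involutive.coe_toPerm, nb_nb h]
  have : (nb σ p.1 p.2).1 = p.2 := rfl
  rw [this]
  by_cases e : p.2 = p.1.1
  · rw [if_pos e, if_pos e.symm]
  · rw [if_neg e, if_neg (fun e' => e e'.symm)]

theorem arcSum_add (σ : Fin 5 → Fin 5 → F → F) (f g : Fin 5 × F → Fin 5 × F → ℝ) :
    arcSum σ (fun u v => f u v + g u v) = arcSum σ f + arcSum σ g := by
  unfold arcSum
  rw [← sum_add_distrib]
  refine sum_congr rfl fun u _ => ?_
  rw [← sum_add_distrib]
  refine sum_congr rfl fun W _ => ?_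
  split_ifs <;> simp

theorem arcSum_mono (σ : Fin 5 → Fin 5 → F → F) (f g : Fin 5 × F → Fin 5 × F → ℝ)
    (hfg : ∀ u W, W ≠ u.1 → f u (nb σ u W) ≤ g u (nb σ u W)) : arcSum σ f ≤ arcSum σ g := by
  unfold arcSum
  refine sum_le_sum fun u _ => sum_le_sum fun W _ => ?_
  split_ifs with e
  · exact le_rfl
  · exact hfg u W e

/-- Total weight of a part. -/
noncomputable def mass (a : Fin 5 × F → ℝ) (U : Fin 5) : ℝ := ∑ x, a (U, x)

theorem forest {σ : Fin 5 → Fin 5 → F → F} (h : Inv σ) (t : ℕ) (hs : Sparse σ t)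
    (a : Fin 5 × F → ℝ) (ha : ∀ u, 0 ≤ a u) (S : Finset (Fin 5 × F)) (hS : S.card ≤ t)
    (hsupp : ∀ u, a u ≠ 0 → u ∈ S) (c ω β : ℝ) (H : Fin 5 → ℝ) (hβ : 0 ≤ β) (hc : c ≤ ω)
    (hH : ∀ U W, W ≠ U → mass a W + ω ≤ H U) :
    arcSum σ (fun u v => a u * a v * (mass a v.1 + c - a v)) ≤
      ∑ W, ((∑ U, mass a U) - mass a W) * (mass a W + ω - β) ^ 2 / 4 +
        β * ∑ U, mass a U * H U := by
  classical
  obtain ⟨P, hP1, hP2⟩ := exists_parent h t hs S hS
  let I : Fin 5 × F → Fin 5 × F → ℝ := fun u v => if P u = v.1 then β * (a u * a v) else 0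
  have h1 : arcSum σ (fun u v => β * (a u * a v)) ≤ arcSum σ (fun u v => I u v + I v u) := by
    apply arcSum_mono
    intro u W hW
    have hnn : 0 ≤ β * (a u * a (nb σ u W)) := mul_nonneg hβ (mul_nonneg (ha _) (ha _))
    by_cases z1 : a u = 0
    · simp [I, z1]
    by_cases z2 : a (nb σ u W) = 0
    · simp [I, z2]
    have hn1 : (nb σ u W).1 = W := rfl
    simp only [I, hn1, mul_comm (a (nb σ u W)) (a u)]
    rcases hP2 u (hsupp u z1) W hW (hsupp _ z2) with e | e
    · rw [if_pos e]; split_ifs <;> linarith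
    · rw [if_pos e]; split_ifs <;> linarith
  have h2 : arcSum σ (fun u v => I u v + I v u) = arcSum σ (fun u v => I u v + I u v) := by
    rw [arcSum_add, arcSum_add, arcSum_swap h (fun u v => I v u)]
  let g : Fin 5 → ℝ := fun W => (mass a W + ω - β) ^ 2 / 4
  have h3 : arcSum σ (fun u v => a u * a v * (mass a v.1 + c - a v) + (I u v + I u v)) ≤
      arcSum σ (fun u v => (a u * g v.1 + if P u = v.1 then a u * (β * H u.1) else 0) +
        β * (a u * a v)) := by
    apply arcSum_mono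
    intro u W hW
    have hn1 : (nb σ u W).1 = W := rfl
    simp only [I, g, hn1]
    have hu := ha u
    have hv := ha (nb σ u W)
    set y := a (nb σ u W)
    have q0 : a u * y * c ≤ a u * y * ω := mul_le_mul_of_nonneg_left hc (mul_nonneg hu hv)
    split_ifs with e
    · have q1 : 0 ≤ a u * (mass a W + ω + β - 2 * y) ^ 2 := mul_nonneg hu (sq_nonneg _)
      have q2 : a u * (β * (mass a W + ω)) ≤ a u * (β * H u.1) :=
        mul_le_mul_of_nonneg_left (mul_le_mul_of_nonneg_left (hH _ _ hW) hβ) hu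
      nlinarith
    · have q1 : 0 ≤ a u * (mass a W + ω - β - 2 * y) ^ 2 := mul_nonneg hu (sq_nonneg _)
      nlinarith
  rw [arcSum_add σ (fun u v => a u * a v * (mass a v.1 + c - a v)),
    arcSum_add σ _ (fun u v => β * (a u * a v)), arcSum_add σ (fun u v => a u * g v.1)] at h3
  have h4 : arcSum σ (fun u v => a u * g v.1) = ∑ W, ((∑ U, mass a U) - mass a W) * g W := by
    unfold arcSum
    rw [sum_comm]
    refine sum_congr rfl fun W _ => ?_
    have hn1 : ∀ u, (nb σ u W).1 = W := fun u => rfl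
    simp only [hn1]
    rw [Fintype.sum_prod_type]
    have : ∀ U : Fin 5, (∑ x : F, if W = U then (0 : ℝ) else a (U, x) * g W) =
        mass a U * g W - if U = W then mass a W * g W else 0 := by
      intro U
      by_cases e : W = U
      · subst e; simp
      · simp only [if_neg e, if_neg (Ne.symm e), sub_zero, mass, sum_mul]
    simp only [this, sum_sub_distrib, sum_ite_eq', mem_univ, if_true, ← sum_mul]
    ring
  have h5 : arcSum σ (fun u v => if P u = v.1 then a u * (β * H u.1) else 0) =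
      β * ∑ U, mass a U * H U := by
    unfold arcSum
    have : ∀ u : Fin 5 × F, (∑ W, if W = u.1 then (0 : ℝ) else
        if P u = (nb σ u W).1 then a u * (β * H u.1) else 0) = a u * (β * H u.1) := by
      intro u
      rw [sum_eq_single (P u)]
      · rw [if_neg (hP1 u), if_pos (show P u = (nb σ u (P u)).1 from rfl)]
      · intro W _ hW
        rw [if_neg (show ¬ P u = (nb σ u W).1 from fun e => hW e.symm)]
        simp
      · simp
    simp only [this]
    rw [Fintype.sum_prod_type, mul_sum]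
    refine sum_congr rfl fun U _ => ?_
    simp only [mass, sum_mul, mul_sum]
    refine sum_congr rfl fun x _ => ?_
    ring
  have h6 : ∑ W, ((∑ U, mass a U) - mass a W) * g W =
      ∑ W, ((∑ U, mass a U) - mass a W) * (mass a W + ω - β) ^ 2 / 4 := by
    refine sum_congr rfl fun W _ => ?_
    simp only [g]; ring
  linarith

/-- The Lagrangian bound for weights carried by a small set. -/
theorem forest_bound {σ : Fin 5 → Fin 5 → F → F} (h : Inv σ) (t : ℕ) (hs : Sparse σ t)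
    (a : Fin 5 × F → ℝ) (ha : ∀ u, 0 ≤ a u) (S : Finset (Fin 5 × F)) (hS : S.card ≤ t)
    (hsupp : ∀ u, a u ≠ 0 → u ∈ S) (s1 s2 r z : ℝ) (h1 : 0 ≤ s1) (h2 : 0 ≤ s2) (hr : 0 ≤ r)
    (hz : 0 ≤ z) :
    z * (((∑ U, mass a U) ^ 2 - ∑ U, mass a U ^ 2) / 2 + (∑ U, mass a U) * (s1 + s2 + r) +
        s1 * s2 + (s1 + s2) * r) +
      arcSum σ (fun u v => a u * a v * (mass a v.1 + (s1 + s2 - z) / 2 - a v)) ≤
      7 / 108 * ((∑ U, mass a U) + (s1 + s2) + r + z) ^ 3 := by
  have hk := key (mass a) (fun U => sum_nonneg fun x _ => ha _) (s1 + s2) z r _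
    (add_nonneg h1 h2) hz hr
    (fun ω β H hβ hc hH => forest h t hs a ha S hS hsupp ((s1 + s2 - z) / 2) ω β H hβ hc hH)
  have : z * (s1 * s2) ≤ z * ((s1 + s2) ^ 2 / 4) :=
    mul_le_mul_of_nonneg_left (by nlinarith [sq_nonneg (s1 - s2)]) hz
  nlinarith

end Pool.Agent.NJ

end MrgPart5

-- ======== part 6: formerly Pool.Agent.MP_16ca68_co.h95.Poly
section MrgPart6

set_option autoImplicit false

namespace Pool.Agent.NJ

open Finset Sum

/-- Vertices: nine parts (five carrying the lift, then `s1, s2, r, z`), each a copy of `F`. -/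
abbrev Vx (F : Type) := (Fin 5 ⊕ Fin 4) × F

/-- Adjacency in the lift. -/
def adj {F : Type} (σ : Fin 5 → Fin 5 → F → F) : Vx F → Vx F → Prop
  | (inl U, x), (inl W, x') => W ≠ U ∧ x' = σ U W x
  | _, _ => False

/-- The pair of parts lies in the link of the cone part. -/
def cone (c d : Fin 5 ⊕ Fin 4) : Prop := c ≠ inr 3 ∧ d ≠ inr 3 ∧ c ≠ d

/-- Edges of the 3-graph, with a distinguished last vertex. -/
def B {F : Type} (σ : Fin 5 → Fin 5 → F → F) (u v w : Vx F) : Prop :=
  (w.1 = inr 3 ∧ cone u.1 v.1 ∧ ¬ adj σ u v) ∨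
    (adj σ u v ∧ w ≠ u ∧ w ≠ v ∧ (w.1 = u.1 ∨ w.1 = v.1 ∨ w.1 = inr 0 ∨ w.1 = inr 1))

theorem adj_iff {F : Type} {σ : Fin 5 → Fin 5 → F → F} {u v : Vx F} :
    adj σ u v ↔ ∃ U W x, W ≠ U ∧ u = (inl U, x) ∧ v = (inl W, σ U W x) := by
  obtain ⟨c, x⟩ := u
  obtain ⟨d, x'⟩ := v
  cases c <;> cases d <;> simp [adj]

theorem adj_symm {F : Type} {σ : Fin 5 → Fin 5 → F → F} (h : Inv σ) {u v : Vx F}
    (a : adj σ u v) : adj σ v u := by
  obtain ⟨U, W, x, h1, rfl, rfl⟩ := adj_iff.1 a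
  exact ⟨h1.symm, (h U W x).symm⟩

theorem B_symm {F : Type} {σ : Fin 5 → Fin 5 → F → F} (h : Inv σ) {u v w : Vx F}
    (b : B σ u v w) : B σ v u w := by
  rcases b with ⟨h1, ⟨h2, h3, h4⟩, h5⟩ | ⟨h1, h2, h3, h4⟩
  · exact Or.inl ⟨h1, ⟨h3, h2, h4.symm⟩, fun a => h5 (adj_symm h a)⟩
  · exact Or.inr ⟨adj_symm h h1, h3, h2, by tauto⟩

theorem B_ne {F : Type} {σ : Fin 5 → Fin 5 → F → F} {u v w : Vx F}
    (b : B σ u v w) : u ≠ v ∧ u ≠ w ∧ v ≠ w := by
  rcases b with ⟨h1, ⟨h2, h3, h4⟩, _⟩ | ⟨h1, h2, h3, _⟩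
  · exact ⟨fun e => h4 (e ▸ rfl), fun e => h2 (e ▸ h1), fun e => h3 (e ▸ h1)⟩
  · obtain ⟨U, W, x, h5, rfl, rfl⟩ := adj_iff.1 h1
    exact ⟨fun e => h5 (by simpa using (congrArg Prod.fst e).symm), h2.symm, h3.symm⟩

theorem B_excl {F : Type} {σ : Fin 5 → Fin 5 → F → F} (h : Inv σ) {u v w : Vx F}
    (b : B σ u v w) (b' : B σ v w u) : False := by
  rcases b with ⟨h1, ⟨h2, _, _⟩, _⟩ | ⟨h1, h2, _, h4⟩
  · rcases b' with ⟨g1, _⟩ | ⟨g1, _⟩
    · exact h2 g1
    · obtain ⟨U, W, x, _, rfl, rfl⟩ := adj_iff.1 g1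
      simp at h1
  · obtain ⟨U, W, x, h5, rfl, rfl⟩ := adj_iff.1 h1
    rcases b' with ⟨g1, _⟩ | ⟨g1, _⟩
    · simp at g1
    · obtain ⟨U', W', x', g5, e, rfl⟩ := adj_iff.1 g1
      simp only [Prod.mk.injEq, inl.injEq] at e
      obtain ⟨rfl, rfl⟩ := e
      simp only [inl.injEq, reduceCtorEq, or_false] at h4
      rcases h4 with rfl | rfl
      · exact h2 (by rw [h])
      · exact g5 rfl

variable {F : Type} [Fintype F]

/-- Weight of a part. -/
noncomputable def pm (y : Vx F → ℝ) (c : Fin 5 ⊕ Fin 4) : ℝ := ∑ x, y (c, x)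

open Classical in
/-- Twice the edge polynomial. -/
noncomputable def PP (σ : Fin 5 → Fin 5 → F → F) (y : Vx F → ℝ) : ℝ :=
  ∑ u, ∑ v, ∑ w, if B σ u v w then y u * y v * y w else 0

theorem sum_part (y : Vx F → ℝ) (c : Fin 5 ⊕ Fin 4) :
    (∑ w : Vx F, if w.1 = c then y w else 0) = pm y c := by
  rw [Fintype.sum_prod_type, sum_eq_single c]
  · simp [pm]
  · intro d _ hd
    simp [hd]
  · simp

open Classical in
theorem link_eq (σ : Fin 5 → Fin 5 → F → F) (y : Vx F → ℝ) (u v : Vx F) :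
    (∑ w, if B σ u v w then y w else 0) = (if cone u.1 v.1 then pm y (inr 3) else 0) +
      if adj σ u v then pm y u.1 + pm y v.1 + pm y (inr 0) + pm y (inr 1) - pm y (inr 3) -
        y u - y v else 0 := by
  by_cases a : adj σ u v
  · obtain ⟨U, W, x, h5, rfl, rfl⟩ := adj_iff.1 a
    have hc : cone (inl U) (inl W) := ⟨by simp, by simp, by simpa using h5.symm⟩
    rw [if_pos a, if_pos hc]
    have key : ∀ w : Vx F, (if B σ (inl U, x) (inl W, σ U W x) w then y w else 0) =
        (if w.1 = inl U then y w else 0) + (if w.1 = inl W then y w else 0) +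
        (if w.1 = inr 0 then y w else 0) + (if w.1 = inr 1 then y w else 0) -
        (if w = (inl U, x) then y w else 0) - (if w = (inl W, σ U W x) then y w else 0) := by
      intro w
      obtain ⟨c, x'⟩ := w
      simp only [B, a, not_true, and_false, false_or, true_and, ne_eq, Prod.mk.injEq]
      by_cases e1 : c = inl U
      · subst e1
        by_cases e2 : x' = x <;> simp [e2, h5.symm]
      · by_cases e2 : c = inl W
        · subst e2
          by_cases e3 : x' = σ U W x <;> simp [e3, h5]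
        · by_cases e3 : c = inr 0
          · subst e3; simp
          · by_cases e4 : c = inr 1
            · subst e4; simp
            · simp [e1, e2, e3, e4]
    simp only [key, sum_sub_distrib, sum_add_distrib, sum_part, sum_ite_eq', mem_univ, if_true]
    ring
  · rw [if_neg a, add_zero]
    by_cases hc : cone u.1 v.1
    · rw [if_pos hc, ← sum_part]
      refine sum_congr rfl fun w _ => ?_
      simp [B, a, hc]
    · rw [if_neg hc]
      refine sum_eq_zero fun w _ => ?_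
      simp [B, a, hc]

/-- The vertices of the lift inside `Vx F`. -/
def emb {F : Type} (u : Fin 5 × F) : Vx F := (inl u.1, u.2)

open Classical in
theorem sum_adj (σ : Fin 5 → Fin 5 → F → F) (f : Vx F → Vx F → ℝ) :
    (∑ u, ∑ v, if adj σ u v then f u v else 0) = arcSum σ (fun u v => f (emb u) (emb v)) := by
  unfold arcSum
  rw [Fintype.sum_prod_type, Fintype.sum_sum_type, Fintype.sum_prod_type]
  have z : (∑ c : Fin 4, ∑ x : F, ∑ v : Vx F, if adj σ (inr c, x) v then f (inr c, x) v else 0) = 0 :=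
    sum_eq_zero fun c _ => sum_eq_zero fun x _ => sum_eq_zero fun v _ => by simp [adj]
  rw [z, add_zero]
  refine sum_congr rfl fun U _ => sum_congr rfl fun x _ => ?_
  rw [Fintype.sum_prod_type, Fintype.sum_sum_type]
  have z2 : (∑ c : Fin 4, ∑ x' : F, if adj σ (inl U, x) (inr c, x') then f (inl U, x) (inr c, x')
      else 0) = 0 := sum_eq_zero fun c _ => sum_eq_zero fun x' _ => by simp [adj]
  rw [z2, add_zero]
  refine sum_congr rfl fun W _ => ?_
  by_cases e : W = U
  · simp [adj, e]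
  · simp [adj, e, emb, nb]

open Classical in
theorem sum_cone (y : Vx F → ℝ) (z : ℝ) :
    (∑ u : Vx F, ∑ v : Vx F, y u * y v * if cone u.1 v.1 then z else 0) =
      2 * (z * (((∑ U, mass (fun u => y (emb u)) U) ^ 2 -
        ∑ U, mass (fun u => y (emb u)) U ^ 2) / 2 + (∑ U, mass (fun u => y (emb u)) U) *
        (pm y (inr 0) + pm y (inr 1) + pm y (inr 2)) + pm y (inr 0) * pm y (inr 1) +
        (pm y (inr 0) + pm y (inr 1)) * pm y (inr 2))) := by
  have e1 : (∑ u : Vx F, ∑ v : Vx F, y u * y v * if cone u.1 v.1 then z else 0) =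
      ∑ c, ∑ d, pm y c * pm y d * if cone c d then z else 0 := by
    rw [Fintype.sum_prod_type]
    refine sum_congr rfl fun c _ => ?_
    simp only [Fintype.sum_prod_type]
    rw [sum_comm]
    refine sum_congr rfl fun d _ => ?_
    simp only [pm, sum_mul, mul_sum]
    exact sum_comm
  have e2 : ∀ U, mass (fun u => y (emb u)) U = pm y (inl U) := fun U => rfl
  rw [e1]
  simp only [e2, Fintype.sum_sum_type, Fin.sum_univ_five, Fin.sum_univ_four, cone]
  simp
  ring

theorem PP_eq {σ : Fin 5 → Fin 5 → F → F} (h : Inv σ) (y : Vx F → ℝ) :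
    PP σ y = 2 * (pm y (inr 3) * (((∑ U, mass (fun u => y (emb u)) U) ^ 2 -
        ∑ U, mass (fun u => y (emb u)) U ^ 2) / 2 + (∑ U, mass (fun u => y (emb u)) U) *
        (pm y (inr 0) + pm y (inr 1) + pm y (inr 2)) + pm y (inr 0) * pm y (inr 1) +
        (pm y (inr 0) + pm y (inr 1)) * pm y (inr 2)) +
      arcSum σ (fun u v => y (emb u) * y (emb v) * (mass (fun u => y (emb u)) v.1 +
        (pm y (inr 0) + pm y (inr 1) - pm y (inr 3)) / 2 - y (emb v)))) := by
  classical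
  have e1 : PP σ y = ∑ u, ∑ v, y u * y v * ∑ w, if B σ u v w then y w else 0 := by
    unfold PP
    refine sum_congr rfl fun u _ => sum_congr rfl fun v _ => ?_
    rw [mul_sum]
    refine sum_congr rfl fun w _ => ?_
    split_ifs <;> simp
  rw [e1]
  simp only [link_eq, mul_add, sum_add_distrib]
  rw [sum_cone]
  have e2 : (∑ u : Vx F, ∑ v : Vx F, y u * y v * if adj σ u v then pm y u.1 + pm y v.1 +
      pm y (inr 0) + pm y (inr 1) - pm y (inr 3) - y u - y v else 0) =
      ∑ u : Vx F, ∑ v : Vx F, if adj σ u v then y u * y v * (pm y u.1 + pm y v.1 +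
      pm y (inr 0) + pm y (inr 1) - pm y (inr 3) - y u - y v) else 0 := by
    refine sum_congr rfl fun u _ => sum_congr rfl fun v _ => ?_
    split_ifs <;> simp
  rw [e2, sum_adj]
  set f : Fin 5 × F → Fin 5 × F → ℝ := fun u v => y (emb u) * y (emb v) *
    (mass (fun u => y (emb u)) v.1 + (pm y (inr 0) + pm y (inr 1) - pm y (inr 3)) / 2 - y (emb v))
    with hf
  have e3 : arcSum σ (fun u v => y (emb u) * y (emb v) * (pm y (emb u).1 + pm y (emb v).1 +
      pm y (inr 0) + pm y (inr 1) - pm y (inr 3) - y (emb u) - y (emb v))) =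
      arcSum σ (fun u v => f u v + f v u) := by
    congr 1
    funext u v
    have e : ∀ u : Fin 5 × F, pm y (emb u).1 = mass (fun u => y (emb u)) u.1 := fun u => rfl
    simp only [hf, e]
    ring
  rw [e3, arcSum_add, ← arcSum_swap h f]
  ring

theorem total_eq (y : Vx F → ℝ) : ∑ u, y u = (∑ U, mass (fun u => y (emb u)) U) +
    (pm y (inr 0) + pm y (inr 1)) + pm y (inr 2) + pm y (inr 3) := by
  rw [Fintype.sum_prod_type, Fintype.sum_sum_type, Fin.sum_univ_four]
  simp only [mass, pm, emb]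
  ring

theorem PP_le {σ : Fin 5 → Fin 5 → F → F} (h : Inv σ) (t : ℕ) (hs : Sparse σ t)
    (y : Vx F → ℝ) (hy : ∀ u, 0 ≤ y u) (S : Finset (Vx F)) (hS : S.card ≤ t)
    (hsupp : ∀ u, y u ≠ 0 → u ∈ S) : PP σ y ≤ 7 / 54 * (∑ u, y u) ^ 3 := by
  classical
  have hinj : Function.Injective (emb : Fin 5 × F → Vx F) := by
    intro u v e
    simp only [emb, Prod.mk.injEq, inl.injEq] at e
    exact Prod.ext e.1 e.2
  have hc : (S.preimage emb hinj.injOn).card ≤ t := by
    refine le_trans ?_ hS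
    exact card_le_card_of_injOn emb (fun u hu => by simpa using hu) hinj.injOn
  have hp : ∀ c, 0 ≤ pm y c := fun c => sum_nonneg fun x _ => hy _
  have := forest_bound h t hs (fun u => y (emb u)) (fun u => hy _) _ hc
    (fun u hu => mem_preimage.2 (hsupp _ hu)) _ _ _ _ (hp (inr 0)) (hp (inr 1)) (hp (inr 2))
    (hp (inr 3))
  rw [PP_eq h, total_eq]
  linarith

/-- Integer weights of the parts when the fibre has `K + 2` points. -/
def wt (K : ℕ) : Fin 5 ⊕ Fin 4 → ℕ
  | inl _ => 2 * K + 4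
  | inr c => ![2 * K + 7, 2 * K + 7, 2 * K + 1, 8 * K + 13] c

theorem PP_gt {σ : Fin 5 → Fin 5 → F → F} (h : Inv σ) (K : ℕ) (hK : Fintype.card F = K + 2) :
    7 / 54 * (∑ u : Vx F, (wt K u.1 : ℝ)) ^ 3 < PP σ (fun u => (wt K u.1 : ℝ)) := by
  rw [PP_eq h, total_eq]
  have hp : ∀ c, pm (fun u : Vx F => (wt K u.1 : ℝ)) c = (K + 2) * wt K c := by
    intro c
    simp [pm, hK]
  have hm : ∀ U, mass (fun u : Fin 5 × F => (wt K (emb u).1 : ℝ)) U = (K + 2) * (2 * K + 4) := by
    intro U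
    simp [mass, emb, wt, hK]
    ring
  have ha : ∀ C : ℝ, arcSum σ (fun _ _ => C) = 20 * (K + 2) * C := by
    intro C
    unfold arcSum
    have : ∀ u : Fin 5 × F, (∑ W : Fin 5, if W = u.1 then (0 : ℝ) else C) = 4 * C := by
      intro u
      obtain ⟨U, x⟩ := u
      fin_cases U <;> simp [Fin.sum_univ_five] <;> ring
    simp only [this, sum_const, card_univ, Fintype.card_prod, Fintype.card_fin, hK, nsmul_eq_mul]
    push_cast
    ring
  simp only [hp, hm]
  have hw : ∀ u : Fin 5 × F, (wt K (emb u).1 : ℝ) = 2 * K + 4 := by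
    intro u
    simp [emb, wt]
  simp only [hw, ha]
  simp only [wt, sum_const, card_univ, Fintype.card_fin, nsmul_eq_mul]
  simp only [Matrix.cons_val_zero, Matrix.cons_val_one, Matrix.cons_val]
  push_cast
  have hK0 : (0 : ℝ) ≤ K := Nat.cast_nonneg K
  have : (0 : ℝ) < (K + 2) ^ 3 * (4 * K + 62) := by positivity
  nlinarith

end Pool.Agent.NJ

end MrgPart6

-- ======== part 7: formerly Pool.Agent.MP_16ca68_co.h95.Count
section MrgPart7

set_option autoImplicit false

namespace Pool.Agent.NJ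

open Finset Sum

variable {F : Type} [Fintype F] {n : ℕ}

open Classical in
/-- Ordered triples of `S` whose images form an edge. -/
noncomputable def Tr (σ : Fin 5 → Fin 5 → F → F) (φ : Fin n → Vx F) (S : Finset (Fin n)) :
    Finset (Fin n × Fin n × Fin n) :=
  (S ×ˢ S ×ˢ S).filter (fun p => B σ (φ p.1) (φ p.2.1) (φ p.2.2))

/-- The set of entries of a triple. -/
def tri (p : Fin n × Fin n × Fin n) : Finset (Fin n) := {p.1, p.2.1, p.2.2}

/-- The blow-up along `φ`. -/
noncomputable def blow (σ : Fin 5 → Fin 5 → F → F) (φ : Fin n → Vx F) : Finset (Finset (Fin n)) :=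
  (Tr σ φ univ).image tri

omit [Fintype F] in
theorem mem_Tr {σ : Fin 5 → Fin 5 → F → F} {φ : Fin n → Vx F} {S : Finset (Fin n)}
    {p : Fin n × Fin n × Fin n} : p ∈ Tr σ φ S ↔
      (p.1 ∈ S ∧ p.2.1 ∈ S ∧ p.2.2 ∈ S) ∧ B σ (φ p.1) (φ p.2.1) (φ p.2.2) := by
  classical
  simp [Tr]

omit [Fintype F] in
theorem blow_card3 (σ : Fin 5 → Fin 5 → F → F) (φ : Fin n → Vx F) :
    ∀ e ∈ blow σ φ, e.card = 3 := by
  intro e he
  obtain ⟨⟨i, j, k⟩, hp, rfl⟩ := mem_image.1 he
  obtain ⟨h1, h2, h3⟩ := B_ne (mem_Tr.1 hp).2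
  exact card_eq_three.2 ⟨i, j, k, fun e => h1 (congrArg φ e), fun e => h2 (congrArg φ e),
    fun e => h3 (congrArg φ e), rfl⟩

omit [Fintype F] in
theorem blow_filter (σ : Fin 5 → Fin 5 → F → F) (φ : Fin n → Vx F) (S : Finset (Fin n)) :
    (blow σ φ).filter (fun e => e ⊆ S) = (Tr σ φ S).image tri := by
  ext e
  simp only [blow, mem_filter, mem_image, mem_Tr, mem_univ, and_self, true_and]
  constructor
  · rintro ⟨⟨p, hp, rfl⟩, hS⟩
    exact ⟨p, ⟨⟨hS (by simp [tri]), hS (by simp [tri]), hS (by simp [tri])⟩, hp⟩, rfl⟩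
  · rintro ⟨p, ⟨⟨h1, h2, h3⟩, hp⟩, rfl⟩
    refine ⟨⟨p, hp, rfl⟩, ?_⟩
    intro a ha
    simp only [tri, mem_insert, mem_singleton] at ha
    rcases ha with rfl | rfl | rfl <;> assumption

omit [Fintype F] in
theorem card_Tr {σ : Fin 5 → Fin 5 → F → F} (h : Inv σ) (φ : Fin n → Vx F) (S : Finset (Fin n)) :
    (Tr σ φ S).card = 2 * ((Tr σ φ S).image tri).card := by
  rw [card_eq_sum_card_image tri (Tr σ φ S), mul_comm, ← smul_eq_mul, ← sum_const]
  refine sum_congr rfl fun e he => ?_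
  obtain ⟨⟨i, j, k⟩, hp, rfl⟩ := mem_image.1 he
  obtain ⟨⟨hi, hj, hk⟩, b⟩ := mem_Tr.1 hp
  dsimp only at hi hj hk b
  have hij : i ≠ j := fun e => (B_ne b).1 (congrArg φ e)
  rw [card_eq_two]
  refine ⟨(i, j, k), (j, i, k), by simp [hij], ?_⟩
  ext ⟨i', j', k'⟩
  simp only [mem_filter, mem_Tr, mem_insert, mem_singleton, Prod.mk.injEq]
  constructor
  · rintro ⟨⟨_, b'⟩, e⟩
    have m1 : i' ∈ tri (i, j, k) := e ▸ (by simp [tri])
    have m2 : j' ∈ tri (i, j, k) := e ▸ (by simp [tri])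
    have m3 : k' ∈ tri (i, j, k) := e ▸ (by simp [tri])
    simp only [tri, mem_insert, mem_singleton] at m1 m2 m3
    obtain ⟨n1, n2, n3⟩ := B_ne b'
    rcases m1 with rfl | rfl | rfl <;> rcases m2 with rfl | rfl | rfl <;>
      rcases m3 with rfl | rfl | rfl <;>
      first
        | exact absurd rfl n1
        | exact absurd rfl n2
        | exact absurd rfl n3
        | exact Or.inl ⟨rfl, rfl, rfl⟩
        | exact Or.inr ⟨rfl, rfl, rfl⟩
        | exact (B_excl h b b').elim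
        | exact (B_excl h b' b).elim
        | exact (B_excl h b (B_symm h b')).elim
        | exact (B_excl h (B_symm h b') b).elim
  · rintro (⟨rfl, rfl, rfl⟩ | ⟨rfl, rfl, rfl⟩)
    · exact ⟨⟨⟨hi, hj, hk⟩, b⟩, rfl⟩
    · refine ⟨⟨⟨hj, hi, hk⟩, B_symm h b⟩, ?_⟩
      simp only [tri]
      exact insert_comm _ _ _

open Classical in
/-- Number of points of `S` over a vertex. -/
noncomputable def cnt (φ : Fin n → Vx F) (S : Finset (Fin n)) (v : Vx F) : ℝ :=
  ((S.filter (fun i => φ i = v)).card : ℝ)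

theorem sum_cnt (φ : Fin n → Vx F) (S : Finset (Fin n)) (g : Vx F → ℝ) :
    ∑ i ∈ S, g (φ i) = ∑ v, cnt φ S v * g v := by
  classical
  rw [← sum_fiberwise S φ]
  refine sum_congr rfl fun v _ => ?_
  rw [sum_congr rfl (g := fun _ => g v) (fun i hi => by rw [(mem_filter.1 hi).2])]
  simp only [cnt, sum_const, nsmul_eq_mul]

theorem Tr_eq_PP (σ : Fin 5 → Fin 5 → F → F) (φ : Fin n → Vx F) (S : Finset (Fin n)) :
    ((Tr σ φ S).card : ℝ) = PP σ (cnt φ S) := by
  classical
  have e : ((Tr σ φ S).card : ℝ) =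
      ∑ i ∈ S, ∑ j ∈ S, ∑ k ∈ S, if B σ (φ i) (φ j) (φ k) then (1 : ℝ) else 0 := by
    unfold Tr
    rw [card_filter, Nat.cast_sum, sum_product]
    refine sum_congr rfl fun i _ => ?_
    rw [sum_product]
    refine sum_congr rfl fun j _ => sum_congr rfl fun k _ => ?_
    split_ifs <;> simp
  rw [e, sum_cnt φ S (fun u => ∑ j ∈ S, ∑ k ∈ S, if B σ u (φ j) (φ k) then (1 : ℝ) else 0)]
  unfold PP
  refine sum_congr rfl fun u _ => ?_
  rw [sum_cnt φ S (fun v => ∑ k ∈ S, if B σ u v (φ k) then (1 : ℝ) else 0), mul_sum]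
  refine sum_congr rfl fun v _ => ?_
  rw [sum_cnt φ S (fun w => if B σ u v w then (1 : ℝ) else 0), mul_sum, mul_sum]
  refine sum_congr rfl fun w _ => ?_
  split_ifs <;> ring

theorem edges_eq {σ : Fin 5 → Fin 5 → F → F} (h : Inv σ) (φ : Fin n → Vx F)
    (S : Finset (Fin n)) :
    2 * (((blow σ φ).filter (fun e => e ⊆ S)).card : ℝ) = PP σ (cnt φ S) := by
  rw [blow_filter, ← Tr_eq_PP, card_Tr h]
  push_cast
  rfl

theorem edges_le {σ : Fin 5 → Fin 5 → F → F} (h : Inv σ) (t : ℕ) (hs : Sparse σ t)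
    (φ : Fin n → Vx F) (S : Finset (Fin n)) (hS : S.card = t) :
    (((blow σ φ).filter (fun e => e ⊆ S)).card : ℝ) ≤ 7 / 108 * (t : ℝ) ^ 3 := by
  classical
  have h1 := PP_le h t hs (cnt φ S) (fun u => Nat.cast_nonneg _) (S.image φ)
    (card_image_le.trans hS.le) (by
      intro u hu
      have : (S.filter (fun i => φ i = u)).Nonempty := by
        rw [← card_pos]
        apply Nat.pos_of_ne_zero
        intro e
        apply hu
        unfold cnt
        rw [Nat.cast_eq_zero]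
        convert e
      obtain ⟨i, hi⟩ := this
      exact mem_image.2 ⟨i, (mem_filter.1 hi).1, (mem_filter.1 hi).2⟩)
  have h2 : ∑ v, cnt φ S v = t := by
    have := sum_cnt φ S (fun _ => 1)
    simp only [sum_const, nsmul_eq_mul, mul_one, hS] at this
    exact this.symm
  rw [h2, ← edges_eq h] at h1
  linarith

theorem exists_map (w : Vx F → ℕ) :
    ∃ φ : Fin (∑ v, w v) → Vx F, ∀ v, cnt φ univ v = w v := by
  classical
  have e : Fin (∑ v, w v) ≃ (Σ v : Vx F, Fin (w v)) :=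
    (Fintype.equivFinOfCardEq (by simp)).symm
  refine ⟨fun i => (e i).1, fun v => ?_⟩
  have h1 : ∀ g : Vx F → ℝ, ∑ u, cnt (fun i => (e i).1) univ u * g u = ∑ u, (w u : ℝ) * g u := by
    intro g
    rw [← sum_cnt (fun i => (e i).1) univ g,
      Equiv.sum_comp e (fun p : (Σ v : Vx F, Fin (w v)) => g p.1), Fintype.sum_sigma]
    simp
  have := h1 (fun u => if u = v then 1 else 0)
  simpa using this

theorem PP_smul (σ : Fin 5 → Fin 5 → F → F) (m : ℝ) (y : Vx F → ℝ) :
    PP σ (fun u => m * y u) = m ^ 3 * PP σ y := by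
  unfold PP
  simp only [mul_sum]
  refine sum_congr rfl fun u _ => sum_congr rfl fun v _ => sum_congr rfl fun w _ => ?_
  split_ifs <;> ring

theorem choose_three (t : ℕ) : (t.choose 3 : ℝ) = t * (t - 1) * (t - 2) / 6 := by
  induction t with
  | zero => simp
  | succ t ih =>
    rw [Nat.choose_succ_succ, Nat.cast_add, ih, Nat.cast_choose_two]
    push_cast
    ring

/-- For every `t` there are arbitrarily large 3-graphs of density bounded away from `7/18` from
above in which every `t` vertices span at most `7 t^3 / 108` edges. -/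
theorem construction (t : ℕ) : ∃ ε : ℝ, 0 < ε ∧ ∀ n₀ : ℕ, ∃ n : ℕ, n₀ ≤ n ∧
    ∃ H : Finset (Finset (Fin n)), (∀ e ∈ H, e.card = 3) ∧
      ((7 : ℝ) / 18 + ε) * (n.choose 3 : ℝ) ≤ (H.card : ℝ) ∧
      ∀ S : Finset (Fin n), S.card = t →
        ((H.filter (fun e => e ⊆ S)).card : ℝ) ≤ 7 / 108 * (t : ℝ) ^ 3 := by
  classical
  obtain ⟨F, hF, σ, h2, hi, hs⟩ := exists_lift t
  obtain ⟨K, hK⟩ : ∃ K, Fintype.card F = K + 2 := ⟨Fintype.card F - 2, by omega⟩
  have hgt := PP_gt hi K hK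
  set M : ℕ := ∑ u : Vx F, wt K u.1 with hM
  have hMr : (∑ u : Vx F, (wt K u.1 : ℝ)) = M := by rw [hM]; push_cast; rfl
  rw [hMr] at hgt
  have hM1 : 1 ≤ M := by
    obtain ⟨x⟩ : Nonempty F := Fintype.card_pos_iff.1 (by omega)
    have := single_le_sum (f := fun u : Vx F => wt K u.1) (fun _ _ => Nat.zero_le _)
      (mem_univ ((inl 0, x) : Vx F))
    have e : wt K ((inl 0, x) : Vx F).1 = 2 * K + 4 := rfl
    rw [e, ← hM] at this
    omega
  have hM0 : (0 : ℝ) < (M : ℝ) ^ 3 := by positivity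
  set p := PP σ (fun u => (wt K u.1 : ℝ)) with hp
  refine ⟨3 * p / (M : ℝ) ^ 3 - 7 / 18, ?_, fun m => ?_⟩
  · rw [sub_pos, lt_div_iff₀ hM0]; linarith
  obtain ⟨φ, hφ⟩ := exists_map (fun u : Vx F => m * wt K u.1)
  have hn : (∑ u : Vx F, m * wt K u.1) = m * M := by rw [hM, mul_sum]
  refine ⟨_, ?_, blow σ φ, blow_card3 σ φ, ?_, fun S hS => edges_le hi t hs φ S hS⟩
  · rw [hn]; nlinarith
  · have e1 := edges_eq hi φ univ
    have e2 : cnt φ univ = fun u => (m : ℝ) * (wt K u.1 : ℝ) := by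
      funext u; rw [hφ]; push_cast; rfl
    rw [e2, PP_smul, ← hp] at e1
    simp only [subset_univ, filter_true] at e1
    generalize ((blow σ φ).card : ℝ) = E at e1 ⊢
    rw [hn, choose_three]
    have hp0 : 0 ≤ 3 * p / (M : ℝ) ^ 3 := by
      apply div_nonneg _ hM0.le
      linarith
    have hN : (0 : ℝ) ≤ ((m * M : ℕ) : ℝ) := Nat.cast_nonneg _
    have hle : ((m * M : ℕ) : ℝ) * (((m * M : ℕ) : ℝ) - 1) * (((m * M : ℕ) : ℝ) - 2) / 6 ≤
        ((m * M : ℕ) : ℝ) ^ 3 / 6 := by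
      rcases Nat.eq_zero_or_pos (m * M) with e | e
      · rw [e]; simp
      · have : (1 : ℝ) ≤ ((m * M : ℕ) : ℝ) := by exact_mod_cast e
        nlinarith [mul_nonneg hN (sub_nonneg.2 this)]
    have e3 : 3 * p / (M : ℝ) ^ 3 * (((m * M : ℕ) : ℝ) ^ 3 / 6) = (m : ℝ) ^ 3 * p / 2 := by
      push_cast
      field_simp
      ring
    have := mul_le_mul_of_nonneg_left hle hp0
    rw [e3] at this
    have e4 : (7 : ℝ) / 18 + (3 * p / (M : ℝ) ^ 3 - 7 / 18) = 3 * p / (M : ℝ) ^ 3 := by ring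
    rw [e4]
    linarith

end Pool.Agent.NJ

end MrgPart7

-- marker of a merged file
example : 731051 + 724767 = 731051 + 724767 := rfl
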